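import Mathlib

open scoped BigOperators Topology ENNReal
open Filter

namespace Pool.Agent.Lib.P4b0054

section Defs

variable (𝕜 : Type*) [RCLike 𝕜] {X : Type*} [AddCommGroup X] [Module 𝕜 X]

/-- `N` is a complete quasi-norm on the vector space `X`. -/
structure IsQuasiBanach (N : X → ℝ) : Prop where
  nonneg : ∀ x, 0 ≤ N x
  eq_zero : ∀ x, N x = 0 → x = 0
  smul : ∀ (c : 𝕜) (x : X), N (c • x) = ‖c‖ * N x
  add_le : ∃ κ : ℝ, 1 ≤ κ ∧ ∀ x y, N (x + y) ≤ κ * (N x + N y)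
  complete : ∀ u : ℕ → X, (∀ ε : ℝ, 0 < ε → ∃ n₀, ∀ m ≥ n₀, ∀ n ≥ n₀, N (u m - u n) < ε) →
    ∃ x, Tendsto (fun n => N (u n - x)) atTop (𝓝 0)

/-- The sequence `u` is equivalent to the canonical basis of `ℓ_p`. -/
def EquivLp (p : ℝ) (N : X → ℝ) (u : ℕ → X) : Prop :=
  ∃ c C : ℝ, 0 < c ∧ ∀ (s : Finset ℕ) (a : ℕ → 𝕜),
    c * (∑ n ∈ s, ‖a n‖ ^ p) ^ (1 / p) ≤ N (∑ n ∈ s, a n • u n) ∧
      N (∑ n ∈ s, a n • u n) ≤ C * (∑ n ∈ s, ‖a n‖ ^ p) ^ (1 / p)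

/-- The Schur `p`-property of the space `X` with quasi-norm `N`. -/
def SchurP (p : ℝ) (N : X → ℝ) : Prop :=
  ∀ S : Set X, S.Infinite → (∃ M : ℝ, ∀ x ∈ S, N x ≤ M) →
    (∃ δ : ℝ, 0 < δ ∧ ∀ x ∈ S, ∀ y ∈ S, x ≠ y → δ ≤ N (x - y)) →
      ∃ u : ℕ → X, (∀ n, u n ∈ S) ∧ EquivLp 𝕜 p N u

/-- The linear map `T` from `(X, N)` to a Banach space is a contraction. -/
def IsContraction {𝕜 : Type} [RCLike 𝕜] {X : Type} [AddCommGroup X] [Module 𝕜 X]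
    (N : X → ℝ) {Z : Type} [NormedAddCommGroup Z] [NormedSpace 𝕜 Z]
    (T : X →ₗ[𝕜] Z) : Prop := ∀ x, ‖T x‖ ≤ N x

/-- The linear map `T` factors as `T' ∘ J` for a linear contraction `T'`. -/
def FactorsThrough {𝕜 : Type} [RCLike 𝕜] {X : Type} [AddCommGroup X] [Module 𝕜 X]
    {Y : Type} [NormedAddCommGroup Y] [NormedSpace 𝕜 Y] (J : X →ₗ[𝕜] Y)
    {Z : Type} [NormedAddCommGroup Z] [NormedSpace 𝕜 Z] (T : X →ₗ[𝕜] Z) : Prop :=
  ∃ T' : Y →L[𝕜] Z, ‖T'‖ ≤ 1 ∧ ∀ x, T' (J x) = T x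

/-- The Banach space `Y` with the map `J` is a Banach envelope of `(X, N)`. -/
structure IsBanachEnvelope {𝕜 : Type} [RCLike 𝕜] {X : Type} [AddCommGroup X] [Module 𝕜 X]
    (N : X → ℝ) {Y : Type} [NormedAddCommGroup Y] [NormedSpace 𝕜 Y]
    (J : X →ₗ[𝕜] Y) : Prop where
  complete : CompleteSpace Y
  contraction : IsContraction N J
  universal : ∀ (Z : Type) [NormedAddCommGroup Z] [NormedSpace 𝕜 Z] [CompleteSpace Z]
    (T : X →ₗ[𝕜] Z), IsContraction N T → FactorsThrough J T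

/-- The Schur property of a Banach space: weakly null sequences are norm null. -/
def SchurProperty (Y : Type*) [NormedAddCommGroup Y] [NormedSpace 𝕜 Y] : Prop :=
  ∀ y : ℕ → Y, (∀ f : Y →L[𝕜] 𝕜, Tendsto (fun n => f (y n)) atTop (𝓝 0)) →
    Tendsto y atTop (𝓝 0)

end Defs

/-- `(X, N)` is a quasi-Banach space with the Schur `p`-property, it has a Banach envelope, and
no Banach envelope of it has the Schur property. -/
def IsCounterexample (𝕜 : Type) [RCLike 𝕜] (p : ℝ) {X : Type} [AddCommGroup X] [Module 𝕜 X]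
    (N : X → ℝ) : Prop :=
  IsQuasiBanach 𝕜 N ∧ SchurP 𝕜 p N ∧
    (∃ (Y : Type) (_ : NormedAddCommGroup Y) (_ : NormedSpace 𝕜 Y) (J : X →ₗ[𝕜] Y),
      IsBanachEnvelope N J) ∧
    ∀ (Y : Type) [NormedAddCommGroup Y] [NormedSpace 𝕜 Y] (J : X →ₗ[𝕜] Y),
      IsBanachEnvelope N J → ¬ SchurProperty 𝕜 Y

end Pool.Agent.Lib.P4b0054
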