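import Mathlib
import Pool.Agent.Lib.P4b0054.Defs

open scoped BigOperators Topology ENNReal
open Filter

namespace Pool.Agent.Lib.P4b0054

/-! ### The space `ℓ_p` with its `F`-norm -/

section Fspace

theorem rpow_add_le {p : ℝ} (hp0 : 0 ≤ p) (hp1 : p ≤ 1) {a b : ℝ} (ha : 0 ≤ a) (hb : 0 ≤ b) :
    (a + b) ^ p ≤ a ^ p + b ^ p := Real.rpow_add_le_add_rpow ha hb hp0 hp1

/-- The scalar field with the `F`-norm `|x|^p`. -/
def RP (_ : ℝ) (𝕜 : Type*) : Type _ := 𝕜

class Exponent (p : ℝ) : Prop where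
  pos : 0 < p
  lt_one : p < 1

variable {p : ℝ} {𝕜 : Type*}

instance [AddCommGroup 𝕜] : AddCommGroup (RP p 𝕜) := inferInstanceAs (AddCommGroup 𝕜)

variable [RCLike 𝕜] [Exponent p]

theorem norm_add_rpow_le (x y : 𝕜) : ‖x + y‖ ^ p ≤ ‖x‖ ^ p + ‖y‖ ^ p := by
  have hp := Exponent.pos (p := p)
  have hp1 := Exponent.lt_one (p := p)
  refine le_trans ?_ (rpow_add_le hp.le hp1.le (norm_nonneg x) (norm_nonneg y))
  exact Real.rpow_le_rpow (norm_nonneg _) (norm_add_le x y) hp.le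

noncomputable instance : NormedAddCommGroup (RP p 𝕜) :=
  AddGroupNorm.toNormedAddCommGroup
    { toFun := fun x => ‖(show 𝕜 from x)‖ ^ p
      map_zero' := by
        change ‖(0 : 𝕜)‖ ^ p = 0
        rw [norm_zero, Real.zero_rpow (Exponent.pos (p := p)).ne']
      add_le' := fun x y => norm_add_rpow_le (𝕜 := 𝕜) x y
      neg' := fun x => by
        change ‖-(show 𝕜 from x)‖ ^ p = _
        rw [norm_neg]
      eq_zero_of_map_eq_zero' := fun x hx => by
        have h1 : ‖(show 𝕜 from x)‖ ^ p = 0 := hx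
        have h2 := (Real.rpow_eq_zero (norm_nonneg _) (Exponent.pos (p := p)).ne').mp h1
        exact norm_eq_zero.mp h2 }

theorem RP.norm_def (x : RP p 𝕜) : ‖x‖ = ‖(show 𝕜 from x)‖ ^ p := rfl

instance : CompleteSpace (RP p 𝕜) := by
  have hp := Exponent.pos (p := p)
  apply Metric.complete_of_cauchySeq_tendsto
  intro u hu
  let v : ℕ → 𝕜 := u
  have hv : CauchySeq v := by
    rw [Metric.cauchySeq_iff] at hu ⊢
    intro ε hε
    obtain ⟨N, hN⟩ := hu (ε ^ p) (by positivity)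
    refine ⟨N, fun m hm n hn => ?_⟩
    have h1 := hN m hm n hn
    rw [dist_eq_norm, RP.norm_def] at h1
    have h2 : ‖v m - v n‖ ^ p < ε ^ p := h1
    rw [dist_eq_norm]
    exact (Real.rpow_lt_rpow_iff (norm_nonneg _) hε.le hp).mp h2
  obtain ⟨x, hx⟩ := cauchySeq_tendsto_of_complete hv
  refine ⟨(show RP p 𝕜 from x), ?_⟩
  rw [tendsto_iff_norm_sub_tendsto_zero] at hx ⊢
  have h3 : Tendsto (fun n => ‖v n - x‖ ^ p) atTop (𝓝 ((0 : ℝ) ^ p)) :=
    hx.rpow_const (Or.inr hp.le)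
  rw [Real.zero_rpow hp.ne'] at h3
  exact h3

/-- `ℓ_p(I)` with the `F`-norm `∑ |f i|^p`. -/
def W (p : ℝ) (𝕜 : Type*) [RCLike 𝕜] [Exponent p] (I : Type*) : Type _ :=
  ↥(lp (fun _ : I => RP p 𝕜) 1)

variable {I : Type*}

noncomputable instance : NormedAddCommGroup (W p 𝕜 I) :=
  inferInstanceAs (NormedAddCommGroup ↥(lp (fun _ : I => RP p 𝕜) 1))

instance : CompleteSpace (W p 𝕜 I) :=
  inferInstanceAs (CompleteSpace ↥(lp (fun _ : I => RP p 𝕜) 1))

/-- the underlying function -/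
def W.fn (f : W p 𝕜 I) : I → 𝕜 := fun i => (f.1 i)

instance : CoeFun (W p 𝕜 I) (fun _ => I → 𝕜) := ⟨W.fn⟩

theorem W.summable (f : W p 𝕜 I) : Summable (fun i => ‖f i‖ ^ p) := by
  have h := (lp.memℓp (E := fun _ : I => RP p 𝕜) (p := 1) f).summable (by norm_num)
  simp only [ENNReal.toReal_one, Real.rpow_one] at h
  exact h

theorem W.norm_def (f : W p 𝕜 I) : ‖f‖ = ∑' i, ‖f i‖ ^ p := by
  have h := lp.norm_eq_tsum_rpow (E := fun _ : I => RP p 𝕜) (p := 1) (by norm_num) f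
  simp only [ENNReal.toReal_one, Real.rpow_one, one_div_one] at h
  exact h

/-- constructor -/
def W.mk (g : I → 𝕜) (h : Summable (fun i => ‖g i‖ ^ p)) : W p 𝕜 I :=
  ⟨fun i => (show RP p 𝕜 from g i), by
    apply memℓp_gen
    simp only [ENNReal.toReal_one, Real.rpow_one]
    exact h⟩

theorem W.mk_apply (g : I → 𝕜) (h : Summable (fun i => ‖g i‖ ^ p)) (i : I) :
    (W.mk g h : W p 𝕜 I) i = g i := rfl

theorem W.ext {f g : W p 𝕜 I} (h : ∀ i, f i = g i) : f = g := by
  apply lp.ext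
  funext i
  exact h i

theorem W.add_apply (f g : W p 𝕜 I) (i : I) : (f + g) i = f i + g i := rfl
theorem W.sub_apply (f g : W p 𝕜 I) (i : I) : (f - g) i = f i - g i := rfl
theorem W.neg_apply (f : W p 𝕜 I) (i : I) : (-f) i = -f i := rfl
theorem W.zero_apply (i : I) : (0 : W p 𝕜 I) i = 0 := rfl

omit [Exponent p] in
theorem norm_smul_rpow (c x : 𝕜) : ‖c * x‖ ^ p = ‖c‖ ^ p * ‖x‖ ^ p := by
  rw [norm_mul, Real.mul_rpow (norm_nonneg _) (norm_nonneg _)]

instance : SMul 𝕜 (W p 𝕜 I) where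
  smul c f := W.mk (fun i => c * f i) (by
    simp only [norm_smul_rpow]
    exact f.summable.mul_left _)

theorem W.smul_apply (c : 𝕜) (f : W p 𝕜 I) (i : I) : (c • f) i = c * f i := rfl

instance : Module 𝕜 (W p 𝕜 I) where
  one_smul f := W.ext fun i => by rw [W.smul_apply, one_mul]
  mul_smul a b f := W.ext fun i => by simp only [W.smul_apply, mul_assoc]
  smul_zero a := W.ext fun i => by simp only [W.smul_apply, W.zero_apply, mul_zero]
  smul_add a f g := W.ext fun i => by simp only [W.smul_apply, W.add_apply, mul_add]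
  add_smul a b f := W.ext fun i => by simp only [W.smul_apply, W.add_apply, add_mul]
  zero_smul f := W.ext fun i => by simp only [W.smul_apply, W.zero_apply, zero_mul]

theorem W.norm_smul (c : 𝕜) (f : W p 𝕜 I) : ‖c • f‖ = ‖c‖ ^ p * ‖f‖ := by
  rw [W.norm_def, W.norm_def, ← tsum_mul_left]
  congr 1
  funext i
  rw [W.smul_apply, norm_smul_rpow]

/-- evaluation as a linear map -/
def W.eval (i : I) : W p 𝕜 I →ₗ[𝕜] 𝕜 where
  toFun f := f i
  map_add' _ _ := rfl
  map_smul' _ _ := rfl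

theorem W.sum_apply {ι : Type*} (s : Finset ι) (f : ι → W p 𝕜 I) (i : I) :
    (∑ k ∈ s, f k : W p 𝕜 I) i = ∑ k ∈ s, (f k) i := map_sum (W.eval i) f s

theorem W.sum_le_norm (f : W p 𝕜 I) (s : Finset I) : ∑ i ∈ s, ‖f i‖ ^ p ≤ ‖f‖ := by
  rw [W.norm_def]
  exact f.summable.sum_le_tsum s (fun i _ => by positivity)

theorem W.apply_le (f : W p 𝕜 I) (i : I) : ‖f i‖ ^ p ≤ ‖f‖ := by
  simpa using f.sum_le_norm {i}

theorem W.summable_norm (f : W p 𝕜 I) : Summable (fun i => ‖f i‖) := by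
  have hp := Exponent.pos (p := p)
  have hp1 := Exponent.lt_one (p := p)
  have h1 := f.summable
  -- all but finitely many coordinates have modulus at most one
  have h2 : ∀ᶠ i in cofinite, ‖f i‖ ^ p < 1 := by
    have := h1.tendsto_cofinite_zero
    exact this.eventually (gt_mem_nhds zero_lt_one)
  refine Summable.of_norm_bounded_eventually h1 ?_
  filter_upwards [h2] with i hi
  rw [norm_norm]
  have h3 : ‖f i‖ < 1 := by
    by_contra hcon
    push Not at hcon
    have := Real.one_le_rpow hcon hp.le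
    linarith
  rcases (norm_nonneg (f i)).eq_or_lt with h0 | h0
  · rw [← h0, Real.zero_rpow hp.ne']
  · calc ‖f i‖ = ‖f i‖ ^ (1 : ℝ) := (Real.rpow_one _).symm
      _ ≤ ‖f i‖ ^ p := Real.rpow_le_rpow_of_exponent_ge h0 h3.le hp1.le

theorem sum_rpow_ge {ι : Type*} (s : Finset ι) (x : ι → ℝ) (hx : ∀ i, 0 ≤ x i) :
    (∑ i ∈ s, x i) ^ p ≤ ∑ i ∈ s, x i ^ p := by
  classical
  have hp := Exponent.pos (p := p)
  have hp1 := Exponent.lt_one (p := p)
  induction s using Finset.induction_on with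
  | empty => simp [Real.zero_rpow hp.ne']
  | insert a s ha ih =>
    rw [Finset.sum_insert ha, Finset.sum_insert ha]
    refine le_trans (rpow_add_le hp.le hp1.le (hx a) (Finset.sum_nonneg (fun i _ => hx i))) ?_
    linarith

theorem norm_sum_rpow_le {ι : Type*} (s : Finset ι) (x : ι → 𝕜) :
    ‖∑ i ∈ s, x i‖ ^ p ≤ ∑ i ∈ s, ‖x i‖ ^ p := by
  have hp := Exponent.pos (p := p)
  refine le_trans (Real.rpow_le_rpow (norm_nonneg _) (norm_sum_le _ _) hp.le) ?_
  exact sum_rpow_ge s _ (fun i => norm_nonneg _)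

theorem W.tsum_norm_rpow_le (f : W p 𝕜 I) : (∑' i, ‖f i‖) ^ p ≤ ‖f‖ := by
  have hp := Exponent.pos (p := p)
  have h1 : Tendsto (fun s : Finset I => (∑ i ∈ s, ‖f i‖) ^ p) atTop (𝓝 ((∑' i, ‖f i‖) ^ p)) :=
    Tendsto.rpow_const (f.summable_norm.hasSum) (Or.inr hp.le)
  refine le_of_tendsto' h1 (fun s => ?_)
  exact le_trans (sum_rpow_ge s _ (fun i => norm_nonneg _)) (f.sum_le_norm s)

end Fspace

set_option linter.unusedSectionVars false

/-! ### A gliding hump lemma -/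

section GlidingHump

variable {p : ℝ} {𝕜 : Type*} [RCLike 𝕜] [Exponent p] {I V : Type*} [AddCommGroup V] [Module 𝕜 V]

/-- A family of `p`-seminorms with finite sum at every vector. -/
structure Fam (p : ℝ) (𝕜 : Type*) [RCLike 𝕜] (I V : Type*) [AddCommGroup V] [Module 𝕜 V] where
  d : I → V → ℝ
  nonneg : ∀ i x, 0 ≤ d i x
  add_le : ∀ i x y, d i (x + y) ≤ d i x + d i y
  smul : ∀ i (c : 𝕜) x, d i (c • x) = ‖c‖ ^ p * d i x
  summable : ∀ x, Summable (fun i => d i x)

namespace Fam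

variable (F : Fam p 𝕜 I V)

/-- total -/
noncomputable def D (x : V) : ℝ := ∑' i, F.d i x

theorem sum_le_D (x : V) (s : Finset I) : ∑ i ∈ s, F.d i x ≤ F.D x :=
  (F.summable x).sum_le_tsum s (fun i _ => F.nonneg i x)

theorem D_nonneg (x : V) : 0 ≤ F.D x := tsum_nonneg (fun i => F.nonneg i x)

theorem d_zero (i : I) : F.d i 0 = 0 := by
  have h := F.smul i (0 : 𝕜) 0
  rw [smul_zero, norm_zero, Real.zero_rpow (Exponent.pos (p := p)).ne', zero_mul] at h
  exact h

theorem d_neg (i : I) (x : V) : F.d i (-x) = F.d i x := by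
  have h := F.smul i (-1 : 𝕜) x
  rw [neg_smul, one_smul, norm_neg, norm_one, Real.one_rpow, one_mul] at h
  exact h

theorem d_sum_le {ι : Type*} (i : I) (s : Finset ι) (x : ι → V) :
    F.d i (∑ k ∈ s, x k) ≤ ∑ k ∈ s, F.d i (x k) := by
  classical
  induction s using Finset.induction_on with
  | empty => simp [F.d_zero]
  | insert a s ha ih =>
    rw [Finset.sum_insert ha, Finset.sum_insert ha]
    exact le_trans (F.add_le _ _ _) (by linarith)

theorem D_add_le (x y : V) : F.D (x + y) ≤ F.D x + F.D y := by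
  unfold D
  rw [← (F.summable x).tsum_add (F.summable y)]
  exact (F.summable _).tsum_le_tsum (fun i => F.add_le i x y) ((F.summable x).add (F.summable y))

theorem D_smul (c : 𝕜) (x : V) : F.D (c • x) = ‖c‖ ^ p * F.D x := by
  unfold D
  rw [← tsum_mul_left]
  congr 1
  funext i
  exact F.smul i c x

theorem D_neg (x : V) : F.D (-x) = F.D x := by
  unfold D
  congr 1
  funext i
  exact F.d_neg i x

theorem exists_tail (x : V) {ε : ℝ} (hε : 0 < ε) : ∃ T : Finset I, F.D x - ∑ i ∈ T, F.d i x < ε := by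
  have h := (F.summable x).hasSum
  have h2 := h.eventually (lt_mem_nhds (show F.D x - ε < F.D x by linarith))
  obtain ⟨T, hT⟩ := h2.exists
  exact ⟨T, by linarith⟩

/-- Gliding hump. -/
theorem gliding_hump (w : V) (b : ℕ → V) (β : ℝ) (hβ : 0 < β)
    (hb : ∀ i, Tendsto (fun j => F.d i (b j)) atTop (𝓝 0)) (hbD : ∀ j, β ≤ F.D (b j)) :
    ∃ φ : ℕ → ℕ, StrictMono φ ∧ ∀ (s : Finset ℕ) (a : ℕ → 𝕜),
      β / 2 * ∑ k ∈ s, ‖a k‖ ^ p ≤ F.D (∑ k ∈ s, a k • (w + b (φ k))) := by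
  classical
  set ε : ℝ := β / 16 with hε
  have hε0 : 0 < ε := by positivity
  obtain ⟨T0, hT0⟩ := F.exists_tail w hε0
  -- the inductive step
  have step : ∀ st : ℕ × Finset I, ∃ st' : ℕ × Finset I, st.1 < st'.1 ∧ st.2 ⊆ st'.2 ∧
      ∑ i ∈ st.2, F.d i (b st'.1) < ε ∧ F.D (b st'.1) - ∑ i ∈ st'.2, F.d i (b st'.1) < ε := by
    intro st
    have h1 : Tendsto (fun j => ∑ i ∈ st.2, F.d i (b j)) atTop (𝓝 0) := by
      have := tendsto_finsetSum st.2 (fun i _ => hb i)
      simpa using this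
    have h2 := h1.eventually (gt_mem_nhds hε0)
    obtain ⟨j, hj, hj'⟩ := (h2.and (eventually_gt_atTop st.1)).exists
    obtain ⟨T, hT⟩ := F.exists_tail (b j) hε0
    refine ⟨(j, st.2 ∪ T), hj', Finset.subset_union_left, hj, ?_⟩
    have h3 : ∑ i ∈ T, F.d i (b j) ≤ ∑ i ∈ st.2 ∪ T, F.d i (b j) :=
      Finset.sum_le_sum_of_subset_of_nonneg Finset.subset_union_right
        (fun i _ _ => F.nonneg i _)
    change F.D (b j) - ∑ i ∈ st.2 ∪ T, F.d i (b j) < ε
    linarith
  choose next hn1 hn2 hn3 hn4 using step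
  let st : ℕ → ℕ × Finset I := fun k => Nat.rec (0, T0) (fun _ s => next s) k
  have hst : ∀ k, st (k + 1) = next (st k) := fun k => rfl
  set φ : ℕ → ℕ := fun k => (st (k + 1)).1 with hφ
  have hφm : StrictMono φ := by
    apply strictMono_nat_of_lt_succ
    intro k
    simp only [hφ]
    rw [hst (k + 1)]
    exact hn1 _
  set T : ℕ → Finset I := fun k => (st k).2 with hT
  have hTm : Monotone T := by
    apply monotone_nat_of_le_succ
    intro k
    simp only [hT]
    rw [hst k]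
    exact hn2 _
  have hT0' : T 0 = T0 := rfl
  have hlow : ∀ k, ∑ i ∈ T k, F.d i (b (φ k)) < ε := by
    intro k
    have := hn3 (st k)
    rw [← hst k] at this
    exact this
  have hhigh : ∀ k, F.D (b (φ k)) - ∑ i ∈ T (k + 1), F.d i (b (φ k)) < ε := by
    intro k
    have := hn4 (st k)
    rw [← hst k] at this
    exact this
  set Dk : ℕ → Finset I := fun k => T (k + 1) \ T k with hDk
  have hdisj : ∀ k l, k ≠ l → Disjoint (Dk k) (Dk l) := by
    intro k l hkl
    rw [Finset.disjoint_left]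
    intro i hik hil
    simp only [hDk, Finset.mem_sdiff] at hik hil
    rcases lt_or_gt_of_ne hkl with h | h
    · exact hil.2 (hTm (show k + 1 ≤ l by omega) hik.1)
    · exact hik.2 (hTm (show l + 1 ≤ k by omega) hil.1)
  have hdiag : ∀ k, F.D (b (φ k)) - 2 * ε ≤ ∑ i ∈ Dk k, F.d i (b (φ k)) := by
    intro k
    have h1 : ∑ i ∈ Dk k, F.d i (b (φ k)) + ∑ i ∈ T k, F.d i (b (φ k))
        = ∑ i ∈ T (k + 1), F.d i (b (φ k)) := Finset.sum_sdiff (hTm (Nat.le_succ k))
    have h2 := hlow k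
    have h3 := hhigh k
    linarith
  refine ⟨φ, hφm, ?_⟩
  intro s a
  set x : V := ∑ k ∈ s, a k • (w + b (φ k)) with hx
  set A : 𝕜 := ∑ k ∈ s, a k with hA
  have hxA : x = A • w + ∑ k ∈ s, a k • b (φ k) := by
    rw [hx, hA, Finset.sum_smul, ← Finset.sum_add_distrib]
    exact Finset.sum_congr rfl (fun k _ => smul_add _ _ _)
  have hAn : ‖A‖ ^ p ≤ ∑ k ∈ s, ‖a k‖ ^ p := norm_sum_rpow_le s a
  -- pointwise estimate
  have hpt : ∀ k ∈ s, ∀ i, ‖a k‖ ^ p * F.d i (b (φ k)) ≤ F.d i x + ‖A‖ ^ p * F.d i w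
      + ∑ l ∈ s.erase k, ‖a l‖ ^ p * F.d i (b (φ l)) := by
    intro k hk i
    have h1 : a k • b (φ k) = (x + -(A • w)) + -(∑ l ∈ s.erase k, a l • b (φ l)) := by
      rw [hxA, ← Finset.add_sum_erase s (fun l => a l • b (φ l)) hk]
      abel
    have h2 : F.d i (a k • b (φ k)) ≤ F.d i x + F.d i (A • w)
        + F.d i (∑ l ∈ s.erase k, a l • b (φ l)) := by
      rw [h1]
      refine le_trans (F.add_le _ _ _) ?_
      have := F.add_le i x (-(A • w))
      rw [F.d_neg] at this ⊢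
      linarith
    rw [F.smul, F.smul] at h2
    have h3 := F.d_sum_le i (s.erase k) (fun l => a l • b (φ l))
    simp only [F.smul] at h3
    linarith
  have hsum : ∑ k ∈ s, ∑ i ∈ Dk k, ‖a k‖ ^ p * F.d i (b (φ k))
      ≤ ∑ k ∈ s, ∑ i ∈ Dk k, (F.d i x + ‖A‖ ^ p * F.d i w
        + ∑ l ∈ s.erase k, ‖a l‖ ^ p * F.d i (b (φ l))) :=
    Finset.sum_le_sum (fun k hk => Finset.sum_le_sum (fun i _ => hpt k hk i))
  have hL : ∑ k ∈ s, ‖a k‖ ^ p * (β - 2 * ε)
      ≤ ∑ k ∈ s, ∑ i ∈ Dk k, ‖a k‖ ^ p * F.d i (b (φ k)) := by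
    apply Finset.sum_le_sum
    intro k _
    rw [← Finset.mul_sum]
    apply mul_le_mul_of_nonneg_left _ (by positivity)
    have := hdiag k
    have := hbD (φ k)
    linarith
  have hU : ∀ y : V, ∑ k ∈ s, ∑ i ∈ Dk k, F.d i y = ∑ i ∈ s.biUnion Dk, F.d i y := fun y =>
    (Finset.sum_biUnion (fun k _ l _ hkl => hdisj k l hkl)).symm
  have h1 : ∑ k ∈ s, ∑ i ∈ Dk k, F.d i x ≤ F.D x := by
    rw [hU]; exact F.sum_le_D _ _
  have h2 : ∑ k ∈ s, ∑ i ∈ Dk k, ‖A‖ ^ p * F.d i w ≤ ‖A‖ ^ p * ε := by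
    simp only [← Finset.mul_sum]
    apply mul_le_mul_of_nonneg_left _ (by positivity)
    rw [hU]
    have hd : Disjoint (s.biUnion Dk) T0 := by
      rw [Finset.disjoint_left]
      intro i hi hi'
      simp only [Finset.mem_biUnion, hDk, Finset.mem_sdiff] at hi
      obtain ⟨k, _, _, hk⟩ := hi
      exact hk (hTm (Nat.zero_le k) hi')
    have h4 : ∑ i ∈ s.biUnion Dk, F.d i w + ∑ i ∈ T0, F.d i w ≤ F.D w := by
      rw [← Finset.sum_union hd]
      exact F.sum_le_D _ _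
    linarith
  have h3 : ∑ k ∈ s, ∑ i ∈ Dk k, ∑ l ∈ s.erase k, ‖a l‖ ^ p * F.d i (b (φ l))
      ≤ ∑ l ∈ s, ‖a l‖ ^ p * (2 * ε) := by
    have h5 : ∑ k ∈ s, ∑ i ∈ Dk k, ∑ l ∈ s.erase k, ‖a l‖ ^ p * F.d i (b (φ l))
        = ∑ l ∈ s, ∑ k ∈ s.erase l, ∑ i ∈ Dk k, ‖a l‖ ^ p * F.d i (b (φ l)) := by
      have h6 : ∀ k ∈ s, ∑ i ∈ Dk k, ∑ l ∈ s.erase k, ‖a l‖ ^ p * F.d i (b (φ l))
          = ∑ l ∈ s.erase k, ∑ i ∈ Dk k, ‖a l‖ ^ p * F.d i (b (φ l)) :=
        fun k _ => Finset.sum_comm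
      rw [Finset.sum_congr rfl h6]
      apply Finset.sum_comm'
      intro k l
      simp only [Finset.mem_erase]
      constructor
      · rintro ⟨h, h', h''⟩; exact ⟨⟨Ne.symm h', h⟩, h''⟩
      · rintro ⟨⟨h, h'⟩, h''⟩; exact ⟨h', Ne.symm h, h''⟩
    rw [h5]
    apply Finset.sum_le_sum
    intro l hl
    simp only [← Finset.mul_sum]
    apply mul_le_mul_of_nonneg_left _ (by positivity)
    have h7 : ∑ k ∈ s.erase l, ∑ i ∈ Dk k, F.d i (b (φ l))
        = ∑ i ∈ (s.erase l).biUnion Dk, F.d i (b (φ l)) :=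
      (Finset.sum_biUnion (fun k _ m _ hkm => hdisj k m hkm)).symm
    rw [h7]
    have hd : Disjoint ((s.erase l).biUnion Dk) (Dk l) := by
      rw [Finset.disjoint_biUnion_left]
      intro k hk
      exact hdisj k l (Finset.ne_of_mem_erase hk)
    have h4 : ∑ i ∈ (s.erase l).biUnion Dk, F.d i (b (φ l)) + ∑ i ∈ Dk l, F.d i (b (φ l))
        ≤ F.D (b (φ l)) := by
      rw [← Finset.sum_union hd]
      exact F.sum_le_D _ _
    have := hdiag l
    linarith
  simp only [Finset.sum_add_distrib] at hsum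
  rw [← Finset.sum_mul] at hL h3
  have hS0 : 0 ≤ ∑ k ∈ s, ‖a k‖ ^ p := Finset.sum_nonneg (fun k _ => by positivity)
  have h8 : ‖A‖ ^ p * ε ≤ (∑ k ∈ s, ‖a k‖ ^ p) * ε := mul_le_mul_of_nonneg_right hAn hε0.le
  nlinarith

end Fam

/-- Coordinatewise convergent subsequences of bounded sequences of `ℓ_p(I)`. -/
theorem W.exists_subseq [Countable I] (f : ℕ → W p 𝕜 I) (R : ℝ) (hR : ∀ j, ‖f j‖ ≤ R) :
    ∃ (φ : ℕ → ℕ) (g : W p 𝕜 I), StrictMono φ ∧
      ∀ i, Tendsto (fun j => (f (φ j)) i) atTop (𝓝 (g i)) := by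
  have hp := Exponent.pos (p := p)
  have hR0 : 0 ≤ R := le_trans (norm_nonneg _) (hR 0)
  have hcomp : IsCompact (Set.pi Set.univ (fun _ : I => Metric.closedBall (0 : 𝕜) (R ^ (1 / p)))) :=
    isCompact_univ_pi (fun _ => isCompact_closedBall _ _)
  have hmem : ∀ j, (fun i => (f j) i) ∈
      Set.pi Set.univ (fun _ : I => Metric.closedBall (0 : 𝕜) (R ^ (1 / p))) := by
    intro j i _
    rw [mem_closedBall_zero_iff]
    have h1 : ‖(f j) i‖ ^ p ≤ R := le_trans ((f j).apply_le i) (hR j)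
    have h2 := Real.rpow_le_rpow (by positivity) h1 (show 0 ≤ 1 / p by positivity)
    rwa [← Real.rpow_mul (norm_nonneg _), mul_one_div_cancel hp.ne', Real.rpow_one] at h2
  obtain ⟨g, _, φ, hφ, hg⟩ := hcomp.tendsto_subseq hmem
  rw [tendsto_pi_nhds] at hg
  have hsum : Summable (fun i => ‖g i‖ ^ p) := by
    apply summable_of_sum_le (c := R) (fun i => by positivity)
    intro s
    have h1 : Tendsto (fun j => ∑ i ∈ s, ‖(f (φ j)) i‖ ^ p) atTop (𝓝 (∑ i ∈ s, ‖g i‖ ^ p)) := by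
      apply tendsto_finsetSum
      intro i _
      exact ((hg i).norm).rpow_const (Or.inr hp.le)
    exact le_of_tendsto' h1 (fun j => le_trans ((f (φ j)).sum_le_norm s) (hR _))
  exact ⟨φ, W.mk g hsum, hφ, fun i => hg i⟩

end GlidingHump

/-! ### The example -/

section Example

variable {p : ℝ} {𝕜 : Type*} [RCLike 𝕜] [Exponent p]

/-- single coordinate vectors -/
noncomputable def W.single {I : Type*} (i : I) (c : 𝕜) : W p 𝕜 I := by
  classical
  exact W.mk (fun j => if j = i then c else 0) (by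
    apply summable_of_ne_finset_zero (s := {i})
    intro j hj
    rw [Finset.mem_singleton] at hj
    rw [if_neg hj, norm_zero, Real.zero_rpow (Exponent.pos (p := p)).ne'])

theorem W.single_apply {I : Type*} [DecidableEq I] (i j : I) (c : 𝕜) :
    (W.single i c : W p 𝕜 I) j = if j = i then c else 0 := by
  unfold W.single
  rw [W.mk_apply]
  congr

theorem W.norm_single {I : Type*} (i : I) (c : 𝕜) : ‖(W.single i c : W p 𝕜 I)‖ = ‖c‖ ^ p := by
  classical
  rw [W.norm_def, tsum_eq_single i]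
  · rw [W.single_apply, if_pos rfl]
  · intro j hj
    rw [W.single_apply, if_neg hj, norm_zero, Real.zero_rpow (Exponent.pos (p := p)).ne']

instance {I : Type*} : ContinuousConstSMul 𝕜 (W p 𝕜 I) where
  continuous_const_smul c := by
    have h : LipschitzWith (Real.toNNReal (‖c‖ ^ p)) (fun x : W p 𝕜 I => c • x) := by
      apply LipschitzWith.of_dist_le_mul
      intro x y
      rw [dist_eq_norm, dist_eq_norm, ← smul_sub, W.norm_smul, Real.coe_toNNReal _ (by positivity)]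
    exact h.continuous

/-- The family of coordinate seminorms of `ℓ_p(I)`. -/
noncomputable def famC (p : ℝ) (𝕜 : Type*) [RCLike 𝕜] [Exponent p] (I : Type*) :
    Fam p 𝕜 I (W p 𝕜 I) where
  d i f := ‖f i‖ ^ p
  nonneg _ _ := by positivity
  add_le i f g := norm_add_rpow_le (f i) (g i)
  smul i c f := norm_smul_rpow c (f i)
  summable f := f.summable

theorem famC_D {I : Type*} (f : W p 𝕜 I) : (famC p 𝕜 I).D f = ‖f‖ := (W.norm_def f).symm

/-- The weights. -/
structure Weights (p : ℝ) where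
  M : Finset ℕ → ℕ
  M_empty : M ∅ = 0
  M_pos : ∀ A, A ≠ ∅ → 0 < M A
  M_large : ∀ A, (A.card : ℝ) ≤ (M A : ℝ) ^ (1 - p)

omit [Exponent p] in
theorem exists_weights (hp1 : p < 1) : Nonempty (Weights p) := by
  classical
  refine ⟨⟨fun A => if A = ∅ then 0 else ⌈(A.card : ℝ) ^ (1 / (1 - p))⌉₊, by simp, ?_, ?_⟩⟩
  · intro A hA
    rw [if_neg hA, Nat.ceil_pos]
    have : 0 < A.card := Finset.card_pos.mpr (Finset.nonempty_iff_ne_empty.mpr hA)
    positivity
  · intro A
    have h1p : 0 < 1 - p := by linarith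
    by_cases hA : A = ∅
    · subst hA
      simp [Real.zero_rpow h1p.ne']
    · rw [if_neg hA]
      have h1 : (A.card : ℝ) ^ (1 / (1 - p)) ≤ (⌈(A.card : ℝ) ^ (1 / (1 - p))⌉₊ : ℝ) := Nat.le_ceil _
      have h2 := Real.rpow_le_rpow (by positivity) h1 h1p.le
      rwa [← Real.rpow_mul (by positivity), one_div_mul_cancel h1p.ne', Real.rpow_one] at h2

variable (S : Weights p)

/-- index set -/
abbrev Gam := Finset ℕ × ℕ

variable (𝕜) in
noncomputable def xA (p : ℝ) [Exponent p] (A : Finset ℕ) : W p 𝕜 Gam :=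
  ∑ n ∈ A, W.single ((∅ : Finset ℕ), n) (1 : 𝕜)

variable (𝕜) in
noncomputable def uA (A : Finset ℕ) : W p 𝕜 Gam :=
  ∑ i ∈ Finset.range (S.M A), W.single (A, i) ((S.M A : 𝕜)⁻¹)

variable (𝕜) in
noncomputable def RA (A : Finset ℕ) : W p 𝕜 Gam := xA 𝕜 p A - uA 𝕜 S A

theorem xA_apply (A : Finset ℕ) (γ : Gam) :
    (xA 𝕜 p A) γ = if γ.1 = ∅ ∧ γ.2 ∈ A then 1 else 0 := by
  classical
  unfold xA
  rw [W.sum_apply]
  simp only [W.single_apply]
  obtain ⟨B, m⟩ := γ
  simp only [Prod.mk.injEq]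
  by_cases hB : B = ∅
  · simp [hB, Finset.sum_ite_eq]
  · simp [hB]

theorem uA_apply (A : Finset ℕ) (γ : Gam) :
    (uA 𝕜 S A) γ = if γ.1 = A ∧ γ.2 < S.M A then ((S.M A : 𝕜)⁻¹) else 0 := by
  classical
  unfold uA
  rw [W.sum_apply]
  simp only [W.single_apply]
  obtain ⟨B, m⟩ := γ
  simp only [Prod.mk.injEq]
  by_cases hB : B = A
  · simp [hB, Finset.sum_ite_eq]
  · simp [hB]

/-- coordinates of `R_A` on the fibres -/
theorem RA_apply_fib (A B : Finset ℕ) (i : ℕ) (hi : i < S.M B) :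
    (RA 𝕜 S A) (B, i) = if B = A then -((S.M A : 𝕜)⁻¹) else 0 := by
  have hB : B ≠ ∅ := by
    rintro rfl
    rw [S.M_empty] at hi
    omega
  unfold RA
  rw [W.sub_apply, xA_apply, uA_apply, if_neg (by simp [hB])]
  by_cases h : B = A
  · subst h
    rw [if_pos ⟨rfl, hi⟩, if_pos rfl, zero_sub]
  · rw [if_neg (by simp [h]), if_neg h, sub_zero]

theorem norm_xA_le (A : Finset ℕ) : ‖xA 𝕜 p A‖ ≤ A.card := by
  unfold xA
  refine le_trans (norm_sum_le _ _) ?_
  simp [W.norm_single]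

theorem M_identity (m : ℕ) (hm : 0 < m) (t : ℝ) (ht : 0 ≤ t) :
    (m : ℝ) * (t * (m : ℝ)⁻¹) ^ p = t ^ p * (m : ℝ) ^ (1 - p) := by
  have hm' : (0 : ℝ) < m := by exact_mod_cast hm
  rw [Real.mul_rpow ht (by positivity), Real.inv_rpow hm'.le, Real.rpow_sub hm', Real.rpow_one]
  field_simp

theorem norm_uA_le (A : Finset ℕ) : ‖uA 𝕜 S A‖ ≤ (S.M A : ℝ) ^ (1 - p) := by
  have hp := Exponent.pos (p := p)
  unfold uA
  refine le_trans (norm_sum_le _ _) ?_
  simp only [W.norm_single, Finset.sum_const, Finset.card_range, nsmul_eq_mul]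
  rcases Nat.eq_zero_or_pos (S.M A) with h | h
  · rw [h]; simp [Real.zero_rpow (show (1 - p) ≠ 0 by have := Exponent.lt_one (p := p); linarith)]
  · have h1 := M_identity (p := p) (S.M A) h 1 zero_le_one
    rw [one_mul, Real.one_rpow, one_mul] at h1
    rw [norm_inv, RCLike.norm_natCast, h1]

theorem norm_RA_le (A : Finset ℕ) : ‖RA 𝕜 S A‖ ≤ 2 * (S.M A : ℝ) ^ (1 - p) := by
  unfold RA
  refine le_trans (norm_sub_le _ _) ?_
  have h1 := norm_xA_le (𝕜 := 𝕜) (p := p) A
  have h2 := norm_uA_le (𝕜 := 𝕜) S A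
  have h3 := S.M_large A
  linarith

variable (𝕜) in
/-- the closed subspace of relations -/
noncomputable def NN : Submodule 𝕜 (W p 𝕜 Gam) :=
  (Submodule.span 𝕜 (Set.range (RA 𝕜 S))).topologicalClosure

theorem RA_mem (A : Finset ℕ) : RA 𝕜 S A ∈ NN 𝕜 S :=
  Submodule.le_topologicalClosure _ (Submodule.subset_span ⟨A, rfl⟩)

instance : IsClosed ((NN 𝕜 S : Submodule 𝕜 (W p 𝕜 Gam)) : Set (W p 𝕜 Gam)) :=
  Submodule.isClosed_topologicalClosure _

variable (𝕜) in
/-- The quasi-Banach space of the example. -/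
abbrev XX : Type _ := (W p 𝕜 Gam) ⧸ (NN 𝕜 S)

/-- sums over fibres -/
noncomputable def fib (f : W p 𝕜 Gam) (A : Finset ℕ) : ℝ :=
  ∑ i ∈ Finset.range (S.M A), ‖f (A, i)‖ ^ p

theorem fib_nonneg (f : W p 𝕜 Gam) (A : Finset ℕ) : 0 ≤ fib S f A :=
  Finset.sum_nonneg (fun i _ => by positivity)

theorem fib_le (f : W p 𝕜 Gam) (A : Finset ℕ) : fib S f A ≤ ∑' i, ‖f (A, i)‖ ^ p := by
  have h := f.summable
  exact (h.prod_factor A).sum_le_tsum _ (fun i _ => by positivity)

theorem summable_rows (f : W p 𝕜 Gam) : Summable (fun A => ∑' i, ‖f (A, i)‖ ^ p) := f.summable.prod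

theorem fib_summable (f : W p 𝕜 Gam) : Summable (fib S f) :=
  Summable.of_nonneg_of_le (fib_nonneg S f) (fib_le S f) (summable_rows f)

theorem norm_eq_rows (f : W p 𝕜 Gam) : ‖f‖ = ∑' A, ∑' i, ‖f (A, i)‖ ^ p := by
  rw [W.norm_def]
  exact f.summable.tsum_prod

theorem tsum_fib_le (f : W p 𝕜 Gam) : ∑' A, fib S f A ≤ ‖f‖ := by
  rw [norm_eq_rows]
  exact (fib_summable S f).tsum_le_tsum (fib_le S f) (summable_rows f)

theorem norm_eq_tsum_fib (f : W p 𝕜 Gam) (hf : ∀ A i, S.M A ≤ i → f (A, i) = 0) :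
    ‖f‖ = ∑' A, fib S f A := by
  rw [norm_eq_rows]
  congr 1
  funext A
  unfold fib
  apply tsum_eq_sum
  intro i hi
  rw [Finset.mem_range, not_lt] at hi
  rw [hf A i hi, norm_zero, Real.zero_rpow (Exponent.pos (p := p)).ne']

/-- Oscillation on the fibre `A`. -/
noncomputable def osc (A : Finset ℕ) (f : W p 𝕜 Gam) : ℝ :=
  (S.M A : ℝ)⁻¹ * ∑ i ∈ Finset.range (S.M A), ∑ j ∈ Finset.range (S.M A), ‖f (A, i) - f (A, j)‖ ^ p

theorem norm_sub_rpow_le (x y : 𝕜) : ‖x - y‖ ^ p ≤ ‖x‖ ^ p + ‖y‖ ^ p := by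
  have := norm_add_rpow_le (p := p) x (-y)
  rwa [norm_neg, ← sub_eq_add_neg] at this

theorem osc_nonneg (A : Finset ℕ) (f : W p 𝕜 Gam) : 0 ≤ osc S A f := by
  unfold osc
  positivity

theorem osc_le (A : Finset ℕ) (f : W p 𝕜 Gam) : osc S A f ≤ 2 * fib S f A := by
  unfold osc
  rcases Nat.eq_zero_or_pos (S.M A) with h | h
  · rw [h]; simp; exact fib_nonneg S f A
  have hm : (0 : ℝ) < S.M A := by exact_mod_cast h
  have h1 : ∑ i ∈ Finset.range (S.M A), ∑ j ∈ Finset.range (S.M A), ‖f (A, i) - f (A, j)‖ ^ p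
      ≤ ∑ i ∈ Finset.range (S.M A), ∑ j ∈ Finset.range (S.M A), (‖f (A, i)‖ ^ p + ‖f (A, j)‖ ^ p) :=
    Finset.sum_le_sum (fun i _ => Finset.sum_le_sum (fun j _ => norm_sub_rpow_le _ _))
  have h2 : ∑ i ∈ Finset.range (S.M A), ∑ j ∈ Finset.range (S.M A), (‖f (A, i)‖ ^ p + ‖f (A, j)‖ ^ p)
      = 2 * (S.M A : ℝ) * fib S f A := by
    simp only [Finset.sum_add_distrib, Finset.sum_const, Finset.card_range, nsmul_eq_mul]
    unfold fib
    rw [← Finset.mul_sum]
    ring
  rw [h2] at h1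
  rw [inv_mul_le_iff₀ hm]
  linarith

/-- The oscillation family. -/
noncomputable def famO : Fam p 𝕜 (Finset ℕ) (W p 𝕜 Gam) where
  d A f := osc S A f
  nonneg := osc_nonneg S
  add_le A f g := by
    unfold osc
    rw [← mul_add]
    apply mul_le_mul_of_nonneg_left _ (by positivity)
    rw [← Finset.sum_add_distrib]
    apply Finset.sum_le_sum
    intro i _
    rw [← Finset.sum_add_distrib]
    apply Finset.sum_le_sum
    intro j _
    have : (f + g) (A, i) - (f + g) (A, j) = (f (A, i) - f (A, j)) + (g (A, i) - g (A, j)) := by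
      rw [W.add_apply, W.add_apply]; ring
    rw [this]
    exact norm_add_rpow_le _ _
  smul A c f := by
    unfold osc
    have : ∀ i j, ‖(c • f) (A, i) - (c • f) (A, j)‖ ^ p = ‖c‖ ^ p * ‖f (A, i) - f (A, j)‖ ^ p := by
      intro i j
      rw [W.smul_apply, W.smul_apply, ← mul_sub, norm_smul_rpow]
    simp only [this, ← Finset.mul_sum]
    ring
  summable f := Summable.of_nonneg_of_le (fun A => osc_nonneg S A f) (fun A => osc_le S A f)
    ((fib_summable S f).mul_left 2)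

theorem famO_D_le (f : W p 𝕜 Gam) : (famO S).D f ≤ 2 * ‖f‖ := by
  unfold Fam.D
  calc ∑' A, (famO S).d A f ≤ ∑' A, 2 * fib S f A :=
        ((famO S).summable f).tsum_le_tsum (fun A => osc_le S A f) ((fib_summable S f).mul_left 2)
    _ = 2 * ∑' A, fib S f A := tsum_mul_left
    _ ≤ 2 * ‖f‖ := by have := tsum_fib_le S f; linarith

theorem famO_D_cont : Continuous (fun f : W p 𝕜 Gam => (famO S).D f) := by
  have h : LipschitzWith 2 (fun f : W p 𝕜 Gam => (famO S).D f) := by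
    apply LipschitzWith.of_dist_le_mul
    intro f g
    rw [Real.dist_eq, dist_eq_norm, abs_le]
    have h1 := (famO S).D_add_le (f - g) g
    have h2 := (famO S).D_add_le (g - f) f
    rw [sub_add_cancel] at h1 h2
    have h3 := famO_D_le S (f - g)
    have h4 : (famO S).D (g - f) = (famO S).D (f - g) := by
      rw [← neg_sub f g, Fam.D_neg]
    rw [h4] at h2
    constructor
    · simp only [NNReal.coe_ofNat]; linarith
    · simp only [NNReal.coe_ofNat]; linarith
  exact h.continuous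

theorem famO_D_RA (A : Finset ℕ) : (famO S).D (RA 𝕜 S A) = 0 := by
  unfold Fam.D
  have : ∀ B, (famO S).d B (RA 𝕜 S A) = 0 := by
    intro B
    change osc S B (RA 𝕜 S A) = 0
    unfold osc
    rw [Finset.sum_eq_zero, mul_zero]
    intro i hi
    apply Finset.sum_eq_zero
    intro j hj
    rw [Finset.mem_range] at hi hj
    rw [RA_apply_fib S A B i hi, RA_apply_fib S A B j hj, sub_self, norm_zero,
      Real.zero_rpow (Exponent.pos (p := p)).ne']
  simp [this]

theorem famO_D_NN (n : W p 𝕜 Gam) (hn : n ∈ NN 𝕜 S) : (famO S).D n = 0 := by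
  have hcl : IsClosed {f : W p 𝕜 Gam | (famO S).D f = 0} :=
    isClosed_eq (famO_D_cont S) continuous_const
  have hspan : ∀ f ∈ Submodule.span 𝕜 (Set.range (RA 𝕜 S)), (famO S).D f = 0 := by
    intro f hf
    induction hf using Submodule.span_induction with
    | mem x hx =>
      obtain ⟨A, rfl⟩ := hx
      exact famO_D_RA S A
    | zero =>
      have := (famO S).D_smul (0 : 𝕜) (0 : W p 𝕜 Gam)
      rw [smul_zero, norm_zero, Real.zero_rpow (Exponent.pos (p := p)).ne', zero_mul] at this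
      exact this
    | add x y _ _ hx hy =>
      have h1 := (famO S).D_add_le x y
      have h2 := (famO S).D_nonneg (x + y)
      linarith
    | smul c x _ hx => rw [Fam.D_smul, hx, mul_zero]
  exact closure_minimal hspan hcl hn

theorem famO_D_le_quot (f : W p 𝕜 Gam) :
    (famO S).D f ≤ 2 * ‖(Submodule.Quotient.mk f : XX 𝕜 S)‖ := by
  apply le_of_forall_pos_le_add
  intro ε hε
  obtain ⟨g, hg, hgn⟩ := Submodule.Quotient.norm_mk_lt (Submodule.Quotient.mk f : XX 𝕜 S)
    (half_pos hε)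
  have h1 : f - g ∈ NN 𝕜 S := by
    rw [← Submodule.Quotient.eq, hg]
  have h2 := (famO S).D_add_le (f - g) g
  rw [sub_add_cancel, famO_D_NN S _ h1] at h2
  have h3 := famO_D_le S g
  linarith

end Example

section Schur

variable {p : ℝ} {𝕜 : Type*} [RCLike 𝕜] [Exponent p] (S : Weights p)

/-- projection killing the fibre coordinates -/
noncomputable def Pe (f : W p 𝕜 Gam) : W p 𝕜 Gam :=
  W.mk (fun γ => if γ.2 < S.M γ.1 then 0 else f γ) (by
    refine Summable.of_nonneg_of_le (fun γ => by positivity) (fun γ => ?_) f.summable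
    split_ifs
    · rw [norm_zero, Real.zero_rpow (Exponent.pos (p := p)).ne']; positivity
    · exact le_rfl)

theorem Pe_apply (f : W p 𝕜 Gam) (γ : Gam) :
    (Pe S f) γ = if γ.2 < S.M γ.1 then 0 else f γ := rfl

theorem norm_split (f : W p 𝕜 Gam) : ‖f‖ = ‖Pe S f‖ + ‖f - Pe S f‖ := by
  rw [W.norm_def f, W.norm_def (Pe S f), W.norm_def (f - Pe S f),
    ← (W.summable _).tsum_add (W.summable _)]
  congr 1
  funext γ
  rw [W.sub_apply, Pe_apply]
  split_ifs
  · rw [norm_zero, Real.zero_rpow (Exponent.pos (p := p)).ne', sub_zero, zero_add]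
  · rw [sub_self, norm_zero, Real.zero_rpow (Exponent.pos (p := p)).ne', add_zero]

/-- vectors vanishing on the fibres -/
def IsE (y : W p 𝕜 Gam) : Prop := ∀ A i, i < S.M A → y (A, i) = 0

theorem isE_add {y z : W p 𝕜 Gam} (hy : IsE S y) (hz : IsE S z) : IsE S (y + z) := by
  intro A i hi
  rw [W.add_apply, hy A i hi, hz A i hi, add_zero]

theorem isE_sub {y z : W p 𝕜 Gam} (hy : IsE S y) (hz : IsE S z) : IsE S (y - z) := by
  intro A i hi
  rw [W.sub_apply, hy A i hi, hz A i hi, sub_zero]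

theorem isE_zero : IsE S (0 : W p 𝕜 Gam) := fun _ _ _ => rfl

theorem isE_sum {s : Finset ℕ} {c : ℕ → 𝕜} {y : ℕ → W p 𝕜 Gam} (hy : ∀ k, IsE S (y k)) :
    IsE S (∑ k ∈ s, c k • y k) := by
  intro A i hi
  rw [W.sum_apply]
  apply Finset.sum_eq_zero
  intro k _
  rw [W.smul_apply, hy k A i hi, mul_zero]

theorem isE_smul {c : 𝕜} {y : W p 𝕜 Gam} (hy : IsE S y) : IsE S (c • y) := by
  intro A i hi
  rw [W.smul_apply, hy A i hi, mul_zero]

theorem isE_Pe (f : W p 𝕜 Gam) : IsE S (Pe S f) := by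
  intro A i hi
  rw [Pe_apply]
  simp [hi]

theorem D_of_isE {y : W p 𝕜 Gam} (hy : IsE S y) : (famO S).D y = 0 := by
  unfold Fam.D
  have : ∀ B, (famO S).d B y = 0 := by
    intro B
    change osc S B y = 0
    unfold osc
    rw [Finset.sum_eq_zero, mul_zero]
    intro i hi
    apply Finset.sum_eq_zero
    intro j hj
    rw [Finset.mem_range] at hi hj
    rw [hy B i hi, hy B j hj, sub_self, norm_zero, Real.zero_rpow (Exponent.pos (p := p)).ne']
  simp [this]

theorem norm_le_of_span (y : W p 𝕜 Gam) (hy : IsE S y) (n : W p 𝕜 Gam)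
    (hn : n ∈ Submodule.span 𝕜 (Set.range (RA 𝕜 S))) : ‖y‖ ≤ ‖y + n‖ := by
  classical
  have hp := Exponent.pos (p := p)
  rw [Finsupp.mem_span_range_iff_exists_finsupp] at hn
  obtain ⟨c, rfl⟩ := hn
  set n : W p 𝕜 Gam := c.sum (fun A a => a • RA 𝕜 S A) with hn
  -- the two parts of `n`
  set nx : W p 𝕜 Gam := ∑ A ∈ c.support, c A • xA 𝕜 p A with hnx
  set nu : W p 𝕜 Gam := ∑ A ∈ c.support, c A • uA 𝕜 S A with hnu
  have hnn : n = nx - nu := by
    rw [hn, hnx, hnu, Finsupp.sum, ← Finset.sum_sub_distrib]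
    apply Finset.sum_congr rfl
    intro A _
    rw [RA, smul_sub]
  have hxE : ∀ γ : Gam, γ.2 < S.M γ.1 → nx γ = 0 := by
    intro γ hγ
    have h1 : γ.1 ≠ ∅ := by
      intro h
      rw [h, S.M_empty] at hγ
      omega
    rw [hnx, W.sum_apply]
    apply Finset.sum_eq_zero
    intro A _
    rw [W.smul_apply, xA_apply, if_neg (fun h => h1 h.1), mul_zero]
  have huE : ∀ γ : Gam, ¬ (γ.2 < S.M γ.1) → nu γ = 0 := by
    intro γ hγ
    rw [hnu, W.sum_apply]
    apply Finset.sum_eq_zero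
    intro A _
    rw [W.smul_apply, uA_apply, if_neg, mul_zero]
    rintro ⟨h1, h2⟩
    rw [← h1] at h2
    exact hγ h2
  have hPe : Pe S (y + n) = y + nx := by
    apply W.ext
    intro γ
    rw [Pe_apply]
    split_ifs with h
    · have h1 : y γ = 0 := hy γ.1 γ.2 h
      rw [W.add_apply, h1, hxE γ h, add_zero]
    · rw [W.add_apply, W.add_apply, hnn, W.sub_apply, huE γ h, sub_zero]
  have hPf : (y + n) - Pe S (y + n) = -nu := by
    rw [hPe, hnn]; abel
  have hnxle : ‖nx‖ ≤ ∑ A ∈ c.support, ‖c A‖ ^ p * (S.M A : ℝ) ^ (1 - p) := by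
    rw [hnx]
    refine le_trans (norm_sum_le _ _) ?_
    apply Finset.sum_le_sum
    intro A _
    rw [W.norm_smul]
    apply mul_le_mul_of_nonneg_left _ (by positivity)
    exact (norm_xA_le A).trans (S.M_large A)
  have hnuge : ∑ A ∈ c.support, ‖c A‖ ^ p * (S.M A : ℝ) ^ (1 - p) ≤ ‖nu‖ := by
    refine le_trans ?_ (tsum_fib_le S nu)
    refine le_trans ?_ ((fib_summable S nu).sum_le_tsum c.support (fun A _ => fib_nonneg S nu A))
    apply Finset.sum_le_sum
    intro A hA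
    have h1 : ∀ i ∈ Finset.range (S.M A), ‖nu (A, i)‖ ^ p = (‖c A‖ * ((S.M A : ℝ))⁻¹) ^ p := by
      intro i hi
      rw [Finset.mem_range] at hi
      congr 1
      rw [hnu, W.sum_apply, Finset.sum_eq_single_of_mem A hA]
      · rw [W.smul_apply, uA_apply, if_pos ⟨rfl, hi⟩, norm_mul, norm_inv, RCLike.norm_natCast]
      · intro B _ hBA
        rw [W.smul_apply, uA_apply, if_neg, mul_zero]
        rintro ⟨h, _⟩
        exact hBA h.symm
    unfold fib
    rw [Finset.sum_congr rfl h1, Finset.sum_const, Finset.card_range, nsmul_eq_mul]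
    rcases Nat.eq_zero_or_pos (S.M A) with h | h
    · rw [h]
      have h1p : (1 - p) ≠ 0 := by have := Exponent.lt_one (p := p); linarith
      simp [Real.zero_rpow h1p]
    · rw [M_identity (S.M A) h _ (norm_nonneg _)]
  have h1 := norm_split S (y + n)
  rw [hPe] at h1
  have h2 : ‖(y + n) - (y + nx)‖ = ‖nu‖ := by
    rw [← hPe, hPf, norm_neg]
  rw [h2] at h1
  have h3 : ‖y‖ ≤ ‖y + nx‖ + ‖nx‖ := by
    have := norm_sub_le (y + nx) nx
    rwa [add_sub_cancel_right] at this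
  linarith

theorem norm_le_of_NN (y : W p 𝕜 Gam) (hy : IsE S y) (n : W p 𝕜 Gam)
    (hn : n ∈ NN 𝕜 S) : ‖y‖ ≤ ‖y + n‖ := by
  have hcl : IsClosed {f : W p 𝕜 Gam | ‖y‖ ≤ ‖y + f‖} :=
    isClosed_le continuous_const (continuous_norm.comp (continuous_const.add continuous_id))
  exact closure_minimal (fun f hf => norm_le_of_span S y hy f hf) hcl hn

theorem norm_mk_of_isE (y : W p 𝕜 Gam) (hy : IsE S y) :
    ‖(Submodule.Quotient.mk y : XX 𝕜 S)‖ = ‖y‖ := by
  apply le_antisymm (Submodule.Quotient.norm_mk_le _ y)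
  apply le_of_forall_pos_le_add
  intro ε hε
  obtain ⟨g, hg, hgn⟩ := Submodule.Quotient.norm_mk_lt (Submodule.Quotient.mk y : XX 𝕜 S) hε
  have h1 : g - y ∈ NN 𝕜 S := by
    rw [← Submodule.Quotient.eq, hg]
  have h2 := norm_le_of_NN S y hy _ h1
  rw [add_sub_cancel] at h2
  linarith

theorem exists_good_index (A : Finset ℕ) (g : W p 𝕜 Gam) (hA : 0 < S.M A) :
    ∃ j, j < S.M A ∧ ∑ i ∈ Finset.range (S.M A), ‖g (A, i) - g (A, j)‖ ^ p ≤ osc S A g := by
  have hm : (0 : ℝ) < S.M A := by exact_mod_cast hA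
  by_contra hcon
  push Not at hcon
  have h1 : ∑ j ∈ Finset.range (S.M A), osc S A g
      < ∑ j ∈ Finset.range (S.M A), ∑ i ∈ Finset.range (S.M A), ‖g (A, i) - g (A, j)‖ ^ p := by
    apply Finset.sum_lt_sum_of_nonempty
    · rw [Finset.nonempty_range_iff]; omega
    · intro j hj
      exact hcon j (Finset.mem_range.mp hj)
  rw [Finset.sum_comm, Finset.sum_const, Finset.card_range, nsmul_eq_mul] at h1
  unfold osc at h1
  rw [← mul_assoc, mul_inv_cancel₀ hm.ne', one_mul] at h1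
  exact lt_irrefl _ h1

theorem decomposition (g : W p 𝕜 Gam) : ∃ y : W p 𝕜 Gam, IsE S y ∧
    ‖(Submodule.Quotient.mk g : XX 𝕜 S) - Submodule.Quotient.mk y‖ ≤ (famO S).D g := by
  classical
  have hp := Exponent.pos (p := p)
  have hidx : ∀ A, ∃ j, 0 < S.M A → (j < S.M A ∧
      ∑ i ∈ Finset.range (S.M A), ‖g (A, i) - g (A, j)‖ ^ p ≤ osc S A g) := by
    intro A
    by_cases hA : 0 < S.M A
    · obtain ⟨j, hj⟩ := exists_good_index S A g hA
      exact ⟨j, fun _ => hj⟩
    · exact ⟨0, fun h => absurd h hA⟩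
  choose j hj using hidx
  set c : Finset ℕ → 𝕜 := fun A => (S.M A : 𝕜) * g (A, j A) with hc
  have hbound : ∀ A, ‖c A • RA 𝕜 S A‖ ≤ 2 * (fib S g A + osc S A g) := by
    intro A
    rcases Nat.eq_zero_or_pos (S.M A) with h | h
    · have : c A = 0 := by rw [hc]; simp [h]
      rw [this, zero_smul, norm_zero]
      have := fib_nonneg S g A
      have := osc_nonneg S A g
      positivity
    · have hm : (0 : ℝ) < S.M A := by exact_mod_cast h
      rw [W.norm_smul]
      have h1 := norm_RA_le (𝕜 := 𝕜) S A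
      have h2 : ‖c A‖ ^ p * (S.M A : ℝ) ^ (1 - p) = (S.M A : ℝ) * ‖g (A, j A)‖ ^ p := by
        simp only [hc]
        rw [norm_mul, RCLike.norm_natCast, Real.mul_rpow hm.le (norm_nonneg _),
          mul_right_comm, ← Real.rpow_add hm]
        simp
      have h3 : (S.M A : ℝ) * ‖g (A, j A)‖ ^ p ≤ fib S g A + osc S A g := by
        have h4 : (S.M A : ℝ) * ‖g (A, j A)‖ ^ p
            = ∑ i ∈ Finset.range (S.M A), ‖g (A, j A)‖ ^ p := by
          rw [Finset.sum_const, Finset.card_range, nsmul_eq_mul]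
        rw [h4]
        refine le_trans (Finset.sum_le_sum (g := fun i => ‖g (A, i)‖ ^ p
          + ‖g (A, i) - g (A, j A)‖ ^ p) (fun i _ => ?_)) ?_
        · have h5 := norm_sub_rpow_le (p := p) (g (A, i)) (g (A, i) - g (A, j A))
          rwa [sub_sub_cancel] at h5
        · rw [Finset.sum_add_distrib]
          have := (hj A h).2
          unfold fib
          linarith
      calc ‖c A‖ ^ p * ‖RA 𝕜 S A‖ ≤ ‖c A‖ ^ p * (2 * (S.M A : ℝ) ^ (1 - p)) :=
            mul_le_mul_of_nonneg_left h1 (by positivity)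
        _ = 2 * (‖c A‖ ^ p * (S.M A : ℝ) ^ (1 - p)) := by ring
        _ ≤ _ := by rw [h2]; linarith
  have hsumO : Summable (fun A => osc S A g) := (famO S).summable g
  have hsum : Summable (fun A => c A • RA 𝕜 S A) := by
    apply Summable.of_norm_bounded (((fib_summable S g).add hsumO).mul_left 2)
    exact hbound
  obtain ⟨h, hh⟩ := hsum
  have hmem : h ∈ NN 𝕜 S := by
    have hcl : IsClosed ((NN 𝕜 S : Submodule 𝕜 (W p 𝕜 Gam)) : Set (W p 𝕜 Gam)) := inferInstance
    refine hcl.mem_of_tendsto hh (Eventually.of_forall (fun T => ?_))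
    apply Submodule.sum_mem
    intro A _
    exact Submodule.smul_mem _ _ (RA_mem S A)
  have hcoord : ∀ A i, i < S.M A → h (A, i) = -g (A, j A) := by
    intro A i hi
    have hA : 0 < S.M A := by omega
    have hmne : (S.M A : 𝕜) ≠ 0 := by exact_mod_cast hA.ne'
    -- evaluation is continuous
    have hcont : Continuous (fun f : W p 𝕜 Gam => f (A, i)) := by
      rw [continuous_iff_continuousAt]
      intro f
      rw [ContinuousAt, tendsto_iff_norm_sub_tendsto_zero]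
      have h1 : Tendsto (fun g : W p 𝕜 Gam => ‖g - f‖ ^ (1 / p)) (𝓝 f) (𝓝 0) := by
        have h2 : Tendsto (fun g : W p 𝕜 Gam => ‖g - f‖) (𝓝 f) (𝓝 0) := by
          rw [← tendsto_iff_norm_sub_tendsto_zero]
          exact tendsto_id
        have h3 := h2.rpow_const (p := 1 / p) (Or.inr (by positivity))
        rwa [Real.zero_rpow (by positivity)] at h3
      refine squeeze_zero (fun _ => norm_nonneg _) (fun g => ?_) h1
      have h4 := (g - f).apply_le (A, i)
      have h5 := Real.rpow_le_rpow (by positivity) h4 (show 0 ≤ 1 / p by positivity)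
      rwa [← Real.rpow_mul (norm_nonneg _), mul_one_div_cancel hp.ne', Real.rpow_one] at h5
    have h1 := hh.map (W.eval (A, i) : W p 𝕜 Gam →ₗ[𝕜] 𝕜) hcont
    have h2 : HasSum (fun B => (c B • RA 𝕜 S B) (A, i)) (h (A, i)) := h1
    have h3 : HasSum (fun B => (c B • RA 𝕜 S B) (A, i)) (-g (A, j A)) := by
      have h4 : ∀ B, B ≠ A → (c B • RA 𝕜 S B) (A, i) = 0 := by
        intro B hB
        rw [W.smul_apply, RA_apply_fib S B A i hi, if_neg (Ne.symm hB), mul_zero]
      have h5 := hasSum_single A h4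
      rw [W.smul_apply, RA_apply_fib S A A i hi, if_pos rfl] at h5
      convert h5 using 1
      simp only [hc]
      field_simp
    exact h2.unique h3
  set g' := g + h with hg'
  refine ⟨Pe S g', isE_Pe S g', ?_⟩
  have h1 : (Submodule.Quotient.mk g : XX 𝕜 S) = Submodule.Quotient.mk g' := by
    rw [Submodule.Quotient.eq, hg', sub_add_cancel_left]
    exact Submodule.neg_mem _ hmem
  rw [h1, ← Submodule.Quotient.mk_sub]
  refine le_trans (Submodule.Quotient.norm_mk_le _ _) ?_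
  rw [norm_eq_tsum_fib S]
  · unfold Fam.D
    apply (fib_summable S _).tsum_le_tsum _ hsumO
    intro A
    rcases Nat.eq_zero_or_pos (S.M A) with hA | hA
    · unfold fib
      rw [hA]
      simp only [Finset.range_zero, Finset.sum_empty]
      exact osc_nonneg S A g
    · refine le_trans (le_of_eq ?_) (hj A hA).2
      unfold fib
      apply Finset.sum_congr rfl
      intro i hi
      rw [Finset.mem_range] at hi
      rw [W.sub_apply, isE_Pe S g' A i hi, sub_zero, hg', W.add_apply, hcoord A i hi,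
        sub_eq_add_neg]
  · intro A i hi
    rw [W.sub_apply, Pe_apply]
    simp [not_lt.mpr hi]

/-- Lower `ℓ_p` estimate. -/
def LowerP (p : ℝ) [Exponent p] {𝕜 : Type*} [RCLike 𝕜] (S : Weights p) (z : ℕ → XX 𝕜 S) : Prop :=
  ∃ c : ℝ, 0 < c ∧ ∀ (s : Finset ℕ) (a : ℕ → 𝕜),
    c * ∑ k ∈ s, ‖a k‖ ^ p ≤ ‖∑ k ∈ s, a k • z k‖

theorem norm_smul_XX (c : 𝕜) (x : XX 𝕜 S) : ‖c • x‖ = ‖c‖ ^ p * ‖x‖ := by
  have hp := Exponent.pos (p := p)
  have key : ∀ (c : 𝕜) (x : XX 𝕜 S), ‖c • x‖ ≤ ‖c‖ ^ p * ‖x‖ := by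
    intro c x
    apply le_of_forall_pos_le_add
    intro ε hε
    obtain ⟨g, rfl, hgn⟩ := Submodule.Quotient.norm_mk_lt x
      (show 0 < ε / (‖c‖ ^ p + 1) by positivity)
    rw [← Submodule.Quotient.mk_smul]
    refine le_trans (Submodule.Quotient.norm_mk_le _ _) ?_
    rw [W.norm_smul]
    have h1 : ‖c‖ ^ p * ‖g‖ ≤ ‖c‖ ^ p * (‖(Submodule.Quotient.mk g : XX 𝕜 S)‖
        + ε / (‖c‖ ^ p + 1)) := mul_le_mul_of_nonneg_left hgn.le (by positivity)
    have h2 : ‖c‖ ^ p * (ε / (‖c‖ ^ p + 1)) ≤ ε := by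
      rw [mul_div_assoc', div_le_iff₀ (by positivity)]
      nlinarith [show (0 : ℝ) ≤ ‖c‖ ^ p by positivity]
    linarith
  apply le_antisymm (key c x)
  by_cases hc : c = 0
  · subst hc
    rw [norm_zero, Real.zero_rpow hp.ne', zero_mul]
    exact norm_nonneg _
  · have h1 := key c⁻¹ (c • x)
    rw [smul_smul, inv_mul_cancel₀ hc, one_smul, norm_inv, Real.inv_rpow (norm_nonneg _)] at h1
    have hcp : 0 < ‖c‖ ^ p := Real.rpow_pos_of_pos (norm_pos_iff.mpr hc) p
    rwa [← div_eq_inv_mul, le_div_iff₀ hcp, mul_comm] at h1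

theorem LowerP.perturb {z r : ℕ → XX 𝕜 S} (hz : LowerP p S z)
    (hr : Tendsto r atTop (𝓝 0)) :
    ∃ k0, LowerP p S (fun k => z (k + k0) + r (k + k0)) := by
  obtain ⟨c, hc, hcz⟩ := hz
  have h1 : ∀ᶠ k in atTop, ‖r k‖ < c / 2 := by
    have := hr.norm
    rw [norm_zero] at this
    exact this.eventually (gt_mem_nhds (by positivity))
  obtain ⟨k0, hk0⟩ := eventually_atTop.mp h1
  refine ⟨k0, c / 2, by positivity, ?_⟩
  intro s a
  have h2 : ∑ k ∈ s, a k • (z (k + k0) + r (k + k0))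
      = (∑ k ∈ s, a k • z (k + k0)) + ∑ k ∈ s, a k • r (k + k0) := by
    rw [← Finset.sum_add_distrib]
    exact Finset.sum_congr rfl (fun k _ => smul_add _ _ _)
  have h3 : c * ∑ k ∈ s, ‖a k‖ ^ p ≤ ‖∑ k ∈ s, a k • z (k + k0)‖ := by
    have h4 := hcz (s.map (addRightEmbedding k0)) (fun k => a (k - k0))
    simpa using h4
  have h4 : ‖∑ k ∈ s, a k • r (k + k0)‖ ≤ c / 2 * ∑ k ∈ s, ‖a k‖ ^ p := by
    refine le_trans (norm_sum_le _ _) ?_
    rw [Finset.mul_sum]
    apply Finset.sum_le_sum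
    intro k _
    rw [norm_smul_XX, mul_comm]
    apply mul_le_mul_of_nonneg_right _ (by positivity)
    exact (hk0 (k + k0) (by omega)).le
  rw [h2]
  have h5 := norm_sub_norm_le (∑ k ∈ s, a k • z (k + k0)) (-(∑ k ∈ s, a k • r (k + k0)))
  rw [sub_neg_eq_add, norm_neg] at h5
  linarith

theorem mk_sum (s : Finset ℕ) (a : ℕ → 𝕜) (f : ℕ → W p 𝕜 Gam) :
    (Submodule.Quotient.mk (∑ k ∈ s, a k • f k) : XX 𝕜 S)
      = ∑ k ∈ s, a k • (Submodule.Quotient.mk (f k) : XX 𝕜 S) := by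
  have h1 : (Submodule.Quotient.mk (∑ k ∈ s, a k • f k) : XX 𝕜 S)
      = (NN 𝕜 S).mkQ (∑ k ∈ s, a k • f k) := rfl
  rw [h1, map_sum]
  refine Finset.sum_congr rfl (fun k _ => ?_)
  rw [map_smul]
  rfl

/-- The main dichotomy in `XX`. -/
theorem main_subseq (ξ : ℕ → XX 𝕜 S) (R : ℝ) (hR : ∀ j, ‖ξ j‖ ≤ R) (δ : ℝ) (hδ : 0 < δ)
    (hsep : ∀ j k, j ≠ k → δ ≤ ‖ξ j - ξ k‖) :
    ∃ φ : ℕ → ℕ, StrictMono φ ∧ LowerP p S (fun k => ξ (φ k)) := by
  have hp := Exponent.pos (p := p)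
  -- bounded lifts
  have hlift : ∀ j, ∃ f : W p 𝕜 Gam, (Submodule.Quotient.mk f : XX 𝕜 S) = ξ j ∧ ‖f‖ ≤ R + 1 := by
    intro j
    obtain ⟨f, hf, hfn⟩ := Submodule.Quotient.norm_mk_lt (ξ j) zero_lt_one
    exact ⟨f, hf, by linarith [hR j]⟩
  choose f hf hfn using hlift
  obtain ⟨φ1, f0, hφ1, hf0⟩ := W.exists_subseq f (R + 1) hfn
  set g : ℕ → W p 𝕜 Gam := fun j => f (φ1 j) - f0 with hg
  have hgcoord : ∀ γ, Tendsto (fun j => (g j) γ) atTop (𝓝 0) := by
    intro γ
    have := (hf0 γ).sub_const (f0 γ)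
    rw [sub_self] at this
    exact this
  have hgosc : ∀ A, Tendsto (fun j => (famO S).d A (g j)) atTop (𝓝 0) := by
    intro A
    change Tendsto (fun j => osc S A (g j)) atTop (𝓝 0)
    unfold osc
    have h1 : Tendsto (fun j => ∑ i ∈ Finset.range (S.M A), ∑ l ∈ Finset.range (S.M A),
        ‖(g j) (A, i) - (g j) (A, l)‖ ^ p) atTop
        (𝓝 (∑ i ∈ Finset.range (S.M A), ∑ l ∈ Finset.range (S.M A), ‖(0 : 𝕜) - 0‖ ^ p)) := by
      apply tendsto_finsetSum
      intro i _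
      apply tendsto_finsetSum
      intro l _
      exact (((hgcoord (A, i)).sub (hgcoord (A, l))).norm).rpow_const (Or.inr hp.le)
    simp only [sub_self, norm_zero, Real.zero_rpow hp.ne', Finset.sum_const_zero] at h1
    have := h1.const_mul ((S.M A : ℝ)⁻¹)
    simpa using this
  have hξ : ∀ j, ξ (φ1 j) = Submodule.Quotient.mk f0 + Submodule.Quotient.mk (g j) := by
    intro j
    rw [← Submodule.Quotient.mk_add, hg, add_sub_cancel, hf]
  by_cases hcase : ∃ β : ℝ, 0 < β ∧ ∃ᶠ j in atTop, β ≤ (famO S).D (g j)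
  · -- the fibre part does not vanish
    obtain ⟨β, hβ, hfreq⟩ := hcase
    obtain ⟨φ2, hφ2, hφ2'⟩ := extraction_of_frequently_atTop hfreq
    obtain ⟨φ3, hφ3, hlow⟩ := (famO S).gliding_hump f0 (fun j => g (φ2 j)) β hβ
      (fun A => (hgosc A).comp hφ2.tendsto_atTop) hφ2'
    refine ⟨fun k => φ1 (φ2 (φ3 k)), hφ1.comp (hφ2.comp hφ3), β / 4, by positivity, ?_⟩
    intro s a
    have h1 := hlow s a
    have h2 := famO_D_le_quot S (∑ k ∈ s, a k • (f0 + g (φ2 (φ3 k))))
    rw [mk_sum] at h2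
    have h3 : ∀ k, (Submodule.Quotient.mk (f0 + g (φ2 (φ3 k))) : XX 𝕜 S) = ξ (φ1 (φ2 (φ3 k))) := by
      intro k
      rw [hξ, Submodule.Quotient.mk_add]
    simp only [h3] at h2
    linarith
  · -- the fibre part tends to zero
    push Not at hcase
    have hD0 : Tendsto (fun j => (famO S).D (g j)) atTop (𝓝 0) := by
      rw [Metric.tendsto_atTop]
      intro ε hε
      have h1 := hcase ε hε
      obtain ⟨N, hN⟩ := eventually_atTop.mp h1
      refine ⟨N, fun n hn => ?_⟩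
      rw [Real.dist_eq, sub_zero, abs_of_nonneg (Fam.D_nonneg _ _)]
      exact hN n hn
    have hdec := fun j => decomposition S (g j)
    choose y hyE hy using hdec
    have hgR : ∀ j, ‖g j‖ ≤ R + 1 + ‖f0‖ := by
      intro j
      refine le_trans (norm_sub_le _ _) ?_
      linarith [hfn (φ1 j)]
    have hybd : ∀ j, ‖y j‖ ≤ 3 * (R + 1 + ‖f0‖) := by
      intro j
      rw [← norm_mk_of_isE S (y j) (hyE j)]
      have h1 : (Submodule.Quotient.mk (y j) : XX 𝕜 S) = Submodule.Quotient.mk (g j)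
          - (Submodule.Quotient.mk (g j) - Submodule.Quotient.mk (y j)) := by abel
      rw [h1]
      refine le_trans (norm_sub_le _ _) ?_
      have h2 := hy j
      have h3 := famO_D_le S (g j)
      have h4 : ‖(Submodule.Quotient.mk (g j) : XX 𝕜 S)‖ ≤ ‖g j‖ := Submodule.Quotient.norm_mk_le _ _
      have h5 := hgR j
      linarith
    obtain ⟨φ2, y0, hφ2, hy0⟩ := W.exists_subseq y _ hybd
    have hy0E : IsE S y0 := by
      intro A i hi
      have h1 := hy0 (A, i)
      have h2 : ∀ j, (y (φ2 j)) (A, i) = 0 := fun j => hyE _ A i hi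
      simp only [h2] at h1
      exact (tendsto_nhds_unique h1 tendsto_const_nhds)
    set h : ℕ → W p 𝕜 Gam := fun j => y (φ2 j) - y0 with hh
    have hhE : ∀ j, IsE S (h j) := fun j => isE_sub S (hyE _) hy0E
    set r : ℕ → XX 𝕜 S := fun j => Submodule.Quotient.mk (g (φ2 j))
      - Submodule.Quotient.mk (y (φ2 j)) with hr
    have hr0 : Tendsto r atTop (𝓝 0) := by
      rw [tendsto_zero_iff_norm_tendsto_zero]
      exact squeeze_zero (fun _ => norm_nonneg _) (fun j => hy (φ2 j))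
        (hD0.comp hφ2.tendsto_atTop)
    have hξ2 : ∀ j, ξ (φ1 (φ2 j)) = (Submodule.Quotient.mk f0 + Submodule.Quotient.mk y0
        + Submodule.Quotient.mk (h j)) + r j := by
      intro j
      rw [hξ]
      simp only [hr, hh, Submodule.Quotient.mk_sub]
      abel
    by_cases hcase2 : ∃ β : ℝ, 0 < β ∧ ∃ᶠ j in atTop, β ≤ ‖h j‖
    · obtain ⟨β, hβ, hfreq⟩ := hcase2
      obtain ⟨φ3, hφ3, hφ3'⟩ := extraction_of_frequently_atTop hfreq
      have hhc : ∀ γ, Tendsto (fun j => (famC p 𝕜 Gam).d γ (h (φ3 j))) atTop (𝓝 0) := by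
        intro γ
        have h1 : Tendsto (fun j => (h j) γ) atTop (𝓝 0) := by
          have := (hy0 γ).sub_const (y0 γ)
          rw [sub_self] at this
          exact this
        have h2 := (h1.norm).rpow_const (p := p) (Or.inr hp.le)
        rw [norm_zero, Real.zero_rpow hp.ne'] at h2
        exact h2.comp hφ3.tendsto_atTop
      have hhD : ∀ j, β ≤ (famC p 𝕜 Gam).D (h (φ3 j)) := by
        intro j
        rw [famC_D]
        exact hφ3' j
      -- the perturbed sequence has a lower estimate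
      have hmain : ∃ φ4 : ℕ → ℕ, StrictMono φ4 ∧ LowerP p S (fun k =>
          Submodule.Quotient.mk f0 + Submodule.Quotient.mk y0
            + Submodule.Quotient.mk (h (φ3 (φ4 k)))) := by
        rcases (Fam.D_nonneg (famO S) f0).eq_or_lt with hD | hD
        · -- `f0` is equivalent to a vector vanishing on the fibres
          obtain ⟨y', hy'E, hy'⟩ := decomposition S f0
          rw [← hD] at hy'
          have h1 : (Submodule.Quotient.mk f0 : XX 𝕜 S) = Submodule.Quotient.mk y' := by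
            have := norm_le_zero_iff.mp hy'
            exact sub_eq_zero.mp this
          obtain ⟨φ4, hφ4, hlow⟩ := (famC p 𝕜 Gam).gliding_hump (y' + y0) (fun j => h (φ3 j))
            β hβ hhc hhD
          refine ⟨φ4, hφ4, β / 2, by positivity, ?_⟩
          intro s a
          have h2 := hlow s a
          rw [famC_D] at h2
          have h3 : IsE S (∑ k ∈ s, a k • (y' + y0 + h (φ3 (φ4 k)))) :=
            isE_sum S (fun k => isE_add S (isE_add S hy'E hy0E) (hhE _))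
          rw [← norm_mk_of_isE S _ h3, mk_sum] at h2
          simp only [Submodule.Quotient.mk_add] at h2
          rw [h1]
          exact h2
        · obtain ⟨φ4, hφ4, hlow⟩ := (famC p 𝕜 Gam).gliding_hump 0 (fun j => h (φ3 j))
            β hβ hhc hhD
          set v0 : XX 𝕜 S := Submodule.Quotient.mk f0 + Submodule.Quotient.mk y0 with hv0
          set D0 := (famO S).D f0 with hD0'
          have hK : 0 < 1 + 2 * ‖v0‖ / D0 := by positivity
          refine ⟨φ4, hφ4, (β / 2) / (1 + 2 * ‖v0‖ / D0), by positivity, ?_⟩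
          intro s a
          have h2 := hlow s a
          simp only [zero_add] at h2
          rw [famC_D] at h2
          have h3 : IsE S (∑ k ∈ s, a k • h (φ3 (φ4 k))) := isE_sum S (fun k => hhE _)
          rw [← norm_mk_of_isE S _ h3] at h2
          set A : 𝕜 := ∑ k ∈ s, a k with hA
          set ζ : XX 𝕜 S := ∑ k ∈ s, a k • (v0 + Submodule.Quotient.mk (h (φ3 (φ4 k)))) with hζ
          have hζ1 : ζ = A • v0
              + (Submodule.Quotient.mk (∑ k ∈ s, a k • h (φ3 (φ4 k))) : XX 𝕜 S) := by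
            rw [hζ, mk_sum, hA, Finset.sum_smul, ← Finset.sum_add_distrib]
            exact Finset.sum_congr rfl (fun k _ => smul_add _ _ _)
          have hζ2 : ζ = Submodule.Quotient.mk (A • f0
              + (A • y0 + ∑ k ∈ s, a k • h (φ3 (φ4 k)))) := by
            rw [hζ1, hv0]
            simp only [Submodule.Quotient.mk_add, Submodule.Quotient.mk_smul, smul_add]
            abel
          have hE : IsE S (A • y0 + ∑ k ∈ s, a k • h (φ3 (φ4 k))) :=
            isE_add S (isE_smul S hy0E) h3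
          have h4 : ‖A‖ ^ p * D0 ≤ 2 * ‖ζ‖ := by
            have h5 := famO_D_le_quot S (A • f0 + (A • y0 + ∑ k ∈ s, a k • h (φ3 (φ4 k))))
            rw [← hζ2] at h5
            have h6 := (famO S).D_add_le (A • f0 + (A • y0 + ∑ k ∈ s, a k • h (φ3 (φ4 k))))
              (-(A • y0 + ∑ k ∈ s, a k • h (φ3 (φ4 k))))
            rw [add_neg_cancel_right, Fam.D_neg, D_of_isE S hE, add_zero, Fam.D_smul] at h6
            linarith
          have h5 : ‖(Submodule.Quotient.mk (∑ k ∈ s, a k • h (φ3 (φ4 k))) : XX 𝕜 S)‖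
              ≤ ‖ζ‖ + ‖A‖ ^ p * ‖v0‖ := by
            have h6 : (Submodule.Quotient.mk (∑ k ∈ s, a k • h (φ3 (φ4 k))) : XX 𝕜 S)
                = ζ - A • v0 := by rw [hζ1]; abel
            rw [h6]
            refine le_trans (norm_sub_le _ _) ?_
            rw [norm_smul_XX]
          have h6 : ‖A‖ ^ p * ‖v0‖ ≤ 2 * ‖v0‖ / D0 * ‖ζ‖ := by
            have h7 : ‖A‖ ^ p ≤ 2 * ‖ζ‖ / D0 := by
              rw [le_div_iff₀ hD]; exact h4
            calc ‖A‖ ^ p * ‖v0‖ ≤ (2 * ‖ζ‖ / D0) * ‖v0‖ :=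
                  mul_le_mul_of_nonneg_right h7 (norm_nonneg _)
              _ = 2 * ‖v0‖ / D0 * ‖ζ‖ := by ring
          rw [div_mul_eq_mul_div, div_le_iff₀ hK]
          linarith
      obtain ⟨φ4, hφ4, hlow⟩ := hmain
      have hr1 : Tendsto (fun k => r (φ3 (φ4 k))) atTop (𝓝 0) :=
        hr0.comp (hφ3.comp hφ4).tendsto_atTop
      obtain ⟨k0, hk0⟩ := hlow.perturb S hr1
      refine ⟨fun k => φ1 (φ2 (φ3 (φ4 (k + k0)))), ?_, ?_⟩
      · intro a b hab
        exact hφ1 (hφ2 (hφ3 (hφ4 (by omega))))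
      · simp only [hξ2]
        exact hk0
    · -- convergence, impossible
      exfalso
      push Not at hcase2
      have hh0 : Tendsto (fun j => ‖h j‖) atTop (𝓝 0) := by
        rw [Metric.tendsto_atTop]
        intro ε hε
        have h1 := hcase2 ε hε
        obtain ⟨N, hN⟩ := eventually_atTop.mp h1
        refine ⟨N, fun n hn => ?_⟩
        rw [Real.dist_eq, sub_zero, abs_of_nonneg (norm_nonneg _)]
        exact hN n hn
      have hmk0 : Tendsto (fun j => (Submodule.Quotient.mk (h j) : XX 𝕜 S)) atTop (𝓝 0) := by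
        rw [tendsto_zero_iff_norm_tendsto_zero]
        exact squeeze_zero (fun _ => norm_nonneg _)
          (fun j => Submodule.Quotient.norm_mk_le _ _) hh0
      have hconv : Tendsto (fun j => ξ (φ1 (φ2 j))) atTop
          (𝓝 ((Submodule.Quotient.mk f0 + Submodule.Quotient.mk y0 + 0) + 0)) := by
        simp only [hξ2]
        exact (tendsto_const_nhds.add hmk0).add hr0
      have hcauchy := hconv.cauchySeq
      rw [Metric.cauchySeq_iff] at hcauchy
      obtain ⟨N, hN⟩ := hcauchy δ hδ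
      have h1 := hN N le_rfl (N + 1) (by omega)
      rw [dist_eq_norm] at h1
      have h2 : φ1 (φ2 N) ≠ φ1 (φ2 (N + 1)) := by
        have := (hφ1.comp hφ2) (show N < N + 1 by omega)
        exact ne_of_lt this
      have h3 := hsep _ _ h2
      linarith

end Schur

/-! ### The quasi-norm of the example -/

section QuasiNorm

variable {p : ℝ} {𝕜 : Type*} [RCLike 𝕜] [Exponent p] (S : Weights p)

/-- the quasi-norm of the example -/
noncomputable def qn (x : XX 𝕜 S) : ℝ := ‖x‖ ^ (1 / p)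

theorem isQuasiBanach_qn : IsQuasiBanach 𝕜 (qn S : XX 𝕜 S → ℝ) := by
  have hp := Exponent.pos (p := p)
  refine ⟨fun x => ?_, fun x hx => ?_, fun c x => ?_, ⟨2 ^ (1 / p), ?_, fun x y => ?_⟩, ?_⟩
  · unfold qn; positivity
  · have h1 := (Real.rpow_eq_zero (norm_nonneg x) (one_div_pos.mpr hp).ne').mp hx
    exact norm_eq_zero.mp h1
  · unfold qn
    rw [norm_smul_XX, Real.mul_rpow (by positivity) (by positivity),
      ← Real.rpow_mul (norm_nonneg _), mul_one_div_cancel hp.ne', Real.rpow_one]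
  · exact Real.one_le_rpow (by norm_num) (by positivity)
  · unfold qn
    have h1 : ‖x + y‖ ≤ 2 * max ‖x‖ ‖y‖ := by
      refine le_trans (norm_add_le x y) ?_
      have h1 := le_max_left ‖x‖ ‖y‖
      have h2 := le_max_right ‖x‖ ‖y‖
      linarith
    have h2 : ‖x + y‖ ^ (1 / p) ≤ (2 * max ‖x‖ ‖y‖) ^ (1 / p) :=
      Real.rpow_le_rpow (norm_nonneg _) h1 (by positivity)
    rw [Real.mul_rpow (by norm_num) (le_trans (norm_nonneg x) (le_max_left _ _))] at h2
    refine le_trans h2 (mul_le_mul_of_nonneg_left ?_ (by positivity))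
    have h3 : (0 : ℝ) ≤ ‖x‖ ^ (1 / p) := by positivity
    have h4 : (0 : ℝ) ≤ ‖y‖ ^ (1 / p) := by positivity
    rcases le_total ‖x‖ ‖y‖ with h | h
    · rw [max_eq_right h]; linarith
    · rw [max_eq_left h]; linarith
  · intro u hu
    have hc : CauchySeq u := by
      rw [Metric.cauchySeq_iff]
      intro ε hε
      obtain ⟨N, hN⟩ := hu (ε ^ (1 / p)) (by positivity)
      refine ⟨N, fun m hm n hn => ?_⟩
      have h1 := hN m hm n hn
      rw [dist_eq_norm]
      exact (Real.rpow_lt_rpow_iff (norm_nonneg _) hε.le (by positivity)).mp h1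
    obtain ⟨x, hx⟩ := cauchySeq_tendsto_of_complete hc
    refine ⟨x, ?_⟩
    rw [tendsto_iff_norm_sub_tendsto_zero] at hx
    have h3 := hx.rpow_const (p := 1 / p) (Or.inr (by positivity))
    rwa [Real.zero_rpow (by positivity)] at h3

theorem schurP_qn : SchurP 𝕜 p (qn S : XX 𝕜 S → ℝ) := by
  have hp := Exponent.pos (p := p)
  intro T hT hM hsep
  obtain ⟨M, hM⟩ := hM
  obtain ⟨δ, hδ, hsep⟩ := hsep
  -- a sequence of distinct elements
  set ξ : ℕ → XX 𝕜 S := fun j => (hT.natEmbedding T j : XX 𝕜 S) with hξ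
  have hξT : ∀ j, ξ j ∈ T := fun j => (hT.natEmbedding T j).2
  have hξinj : ∀ j k, j ≠ k → ξ j ≠ ξ k := by
    intro j k hjk h
    exact hjk ((hT.natEmbedding T).injective (Subtype.ext h))
  have hM0 : 0 ≤ M := le_trans ((isQuasiBanach_qn (𝕜 := 𝕜) S).nonneg _) (hM _ (hξT 0))
  have hb : ∀ x : XX 𝕜 S, ‖x‖ = (qn S x) ^ p := by
    intro x
    unfold qn
    rw [← Real.rpow_mul (norm_nonneg _), one_div_mul_cancel hp.ne', Real.rpow_one]
  have hR : ∀ j, ‖ξ j‖ ≤ M ^ p := by
    intro j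
    rw [hb]
    exact Real.rpow_le_rpow ((isQuasiBanach_qn (𝕜 := 𝕜) S).nonneg _) (hM _ (hξT j)) hp.le
  have hsep' : ∀ j k, j ≠ k → δ ^ p ≤ ‖ξ j - ξ k‖ := by
    intro j k hjk
    rw [hb]
    exact Real.rpow_le_rpow hδ.le (hsep _ (hξT j) _ (hξT k) (hξinj j k hjk)) hp.le
  obtain ⟨φ, hφ, c, hc, hlow⟩ := main_subseq S ξ (M ^ p) hR (δ ^ p) (by positivity) hsep'
  refine ⟨fun k => ξ (φ k), fun k => hξT _, c ^ (1 / p), M, by positivity, fun s a => ⟨?_, ?_⟩⟩
  · rw [← Real.mul_rpow hc.le (by positivity)]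
    exact Real.rpow_le_rpow (by positivity) (hlow s a) (by positivity)
  · have h1 : ‖∑ k ∈ s, a k • ξ (φ k)‖ ≤ M ^ p * ∑ k ∈ s, ‖a k‖ ^ p := by
      refine le_trans (norm_sum_le _ _) ?_
      rw [Finset.mul_sum]
      apply Finset.sum_le_sum
      intro k _
      rw [norm_smul_XX, mul_comm]
      exact mul_le_mul_of_nonneg_right (hR _) (by positivity)
    have h2 := Real.rpow_le_rpow (norm_nonneg _) h1 (show 0 ≤ 1 / p by positivity)
    rw [Real.mul_rpow (by positivity) (by positivity), ← Real.rpow_mul hM0,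
      mul_one_div_cancel hp.ne', Real.rpow_one] at h2
    exact h2

/-- the coefficients of the functional `F_n` -/
noncomputable def coef (n : ℕ) (γ : Gam) : ℝ := by
  classical
  exact if (γ.1 = ∅ ∧ γ.2 = n) ∨ (γ.2 < S.M γ.1 ∧ n ∈ γ.1) then 1 else 0

theorem coef_nonneg (n : ℕ) (γ : Gam) : 0 ≤ coef S n γ := by
  unfold coef; split_ifs <;> norm_num

theorem coef_le (n : ℕ) (γ : Gam) : coef S n γ ≤ 1 := by
  unfold coef; split_ifs <;> norm_num

theorem coef_summable (n : ℕ) (f : W p 𝕜 Gam) : Summable (fun γ => (coef S n γ : 𝕜) * f γ) := by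
  apply Summable.of_norm_bounded f.summable_norm
  intro γ
  rw [norm_mul, RCLike.norm_ofReal, abs_of_nonneg (coef_nonneg S n γ)]
  exact mul_le_of_le_one_left (norm_nonneg _) (coef_le S n γ)

/-- the functional `F_n` on `ℓ_p` -/
noncomputable def Lam (n : ℕ) : W p 𝕜 Gam →ₗ[𝕜] 𝕜 where
  toFun f := ∑' γ, (coef S n γ : 𝕜) * f γ
  map_add' f g := by
    rw [← (coef_summable S n f).tsum_add (coef_summable S n g)]
    congr 1
    funext γ
    rw [W.add_apply, mul_add]
  map_smul' c f := by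
    rw [RingHom.id_apply, smul_eq_mul, ← tsum_mul_left]
    congr 1
    funext γ
    rw [W.smul_apply]
    ring

theorem Lam_le (n : ℕ) (f : W p 𝕜 Gam) : ‖Lam S n f‖ ^ p ≤ ‖f‖ := by
  have hp := Exponent.pos (p := p)
  refine le_trans (Real.rpow_le_rpow (norm_nonneg _) ?_ hp.le) f.tsum_norm_rpow_le
  change ‖∑' γ, (coef S n γ : 𝕜) * f γ‖ ≤ _
  have hb : ∀ γ, ‖(coef S n γ : 𝕜) * f γ‖ ≤ ‖f γ‖ := by
    intro γ
    rw [norm_mul, RCLike.norm_ofReal, abs_of_nonneg (coef_nonneg S n γ)]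
    exact mul_le_of_le_one_left (norm_nonneg _) (coef_le S n γ)
  have hs : Summable (fun γ => ‖(coef S n γ : 𝕜) * f γ‖) :=
    Summable.of_nonneg_of_le (fun _ => norm_nonneg _) hb f.summable_norm
  refine le_trans (norm_tsum_le_tsum_norm hs) ?_
  exact hs.tsum_le_tsum hb f.summable_norm

theorem Lam_single (n : ℕ) (γ : Gam) (c : 𝕜) :
    Lam S n (W.single γ c) = (coef S n γ : 𝕜) * c := by
  classical
  change ∑' γ', (coef S n γ' : 𝕜) * (W.single γ c : W p 𝕜 Gam) γ' = _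
  rw [tsum_eq_single γ]
  · rw [W.single_apply, if_pos rfl]
  · intro γ' h
    rw [W.single_apply, if_neg h, mul_zero]

theorem coef_empty (n m : ℕ) : coef S n ((∅ : Finset ℕ), m) = if m = n then 1 else 0 := by
  unfold coef
  simp

theorem coef_fib (n : ℕ) (A : Finset ℕ) (i : ℕ) (hi : i < S.M A) :
    coef S n (A, i) = if n ∈ A then 1 else 0 := by
  have hA : A ≠ ∅ := by
    rintro rfl
    rw [S.M_empty] at hi
    omega
  unfold coef
  simp [hA, hi]

theorem Lam_RA (n : ℕ) (A : Finset ℕ) : Lam S n (RA 𝕜 S A) = 0 := by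
  classical
  unfold RA
  rw [map_sub]
  have h1 : Lam S n (xA 𝕜 p A) = if n ∈ A then 1 else 0 := by
    unfold xA
    rw [map_sum]
    simp only [Lam_single, coef_empty, mul_one]
    by_cases h : n ∈ A
    · rw [if_pos h, Finset.sum_eq_single n]
      · simp
      · intro b _ hb
        rw [if_neg hb]
        simp
      · intro h'
        exact absurd h h'
    · rw [if_neg h]
      apply Finset.sum_eq_zero
      intro b hb
      rw [if_neg (by rintro rfl; exact h hb)]
      simp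
  have h2 : Lam S n (uA 𝕜 S A) = if n ∈ A then 1 else 0 := by
    unfold uA
    rw [map_sum]
    simp only [Lam_single]
    by_cases h : n ∈ A
    · rw [if_pos h]
      have hM : 0 < S.M A := S.M_pos A (by rintro rfl; simp at h)
      have h3 : ∀ i ∈ Finset.range (S.M A), (coef S n (A, i) : 𝕜) * (S.M A : 𝕜)⁻¹
          = (S.M A : 𝕜)⁻¹ := by
        intro i hi
        rw [coef_fib S n A i (Finset.mem_range.mp hi), if_pos h]
        simp
      rw [Finset.sum_congr rfl h3, Finset.sum_const, Finset.card_range, nsmul_eq_mul,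
        mul_inv_cancel₀]
      exact_mod_cast hM.ne'
    · rw [if_neg h]
      apply Finset.sum_eq_zero
      intro i hi
      rw [coef_fib S n A i (Finset.mem_range.mp hi), if_neg h]
      simp
  rw [h1, h2, sub_self]

theorem Lam_NN (n : ℕ) (f : W p 𝕜 Gam) (hf : f ∈ NN 𝕜 S) : Lam S n f = 0 := by
  have hp := Exponent.pos (p := p)
  have hcont : Continuous (fun f : W p 𝕜 Gam => Lam S n f) := by
    rw [continuous_iff_continuousAt]
    intro f
    rw [ContinuousAt, tendsto_iff_norm_sub_tendsto_zero]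
    have h1 : Tendsto (fun g : W p 𝕜 Gam => ‖g - f‖ ^ (1 / p)) (𝓝 f) (𝓝 0) := by
      have h2 : Tendsto (fun g : W p 𝕜 Gam => ‖g - f‖) (𝓝 f) (𝓝 0) := by
        rw [← tendsto_iff_norm_sub_tendsto_zero]
        exact tendsto_id
      have h3 := h2.rpow_const (p := 1 / p) (Or.inr (by positivity))
      rwa [Real.zero_rpow (by positivity)] at h3
    refine squeeze_zero (fun _ => norm_nonneg _) (fun g => ?_) h1
    have h4 := Lam_le S n (g - f)
    rw [map_sub] at h4
    have h5 := Real.rpow_le_rpow (by positivity) h4 (show 0 ≤ 1 / p by positivity)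
    rwa [← Real.rpow_mul (norm_nonneg _), mul_one_div_cancel hp.ne', Real.rpow_one] at h5
  have hcl : IsClosed {f : W p 𝕜 Gam | Lam S n f = 0} := isClosed_eq hcont continuous_const
  have hspan : ∀ f ∈ Submodule.span 𝕜 (Set.range (RA 𝕜 S)), Lam S n f = 0 := by
    intro f hf
    induction hf using Submodule.span_induction with
    | mem x hx =>
      obtain ⟨A, rfl⟩ := hx
      exact Lam_RA S n A
    | zero => exact map_zero _
    | add x y _ _ hx hy => rw [map_add, hx, hy, add_zero]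
    | smul c x _ hx => rw [map_smul, hx, smul_zero]
  exact closure_minimal hspan hcl hf

/-- the functional `F_n` on the example -/
noncomputable def FF (n : ℕ) : XX 𝕜 S →ₗ[𝕜] 𝕜 :=
  (NN 𝕜 S).liftQ (Lam S n) (fun f hf => Lam_NN S n f hf)

theorem FF_mk (n : ℕ) (f : W p 𝕜 Gam) : FF S n (Submodule.Quotient.mk f) = Lam S n f := rfl

theorem FF_le (n : ℕ) (x : XX 𝕜 S) : ‖FF S n x‖ ≤ qn S x := by
  have hp := Exponent.pos (p := p)
  have h1 : ‖FF S n x‖ ^ p ≤ ‖x‖ := by
    apply le_of_forall_pos_le_add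
    intro ε hε
    obtain ⟨g, rfl, hgn⟩ := Submodule.Quotient.norm_mk_lt x hε
    rw [FF_mk]
    exact le_trans (Lam_le S n g) hgn.le
  have h5 := Real.rpow_le_rpow (by positivity) h1 (show 0 ≤ 1 / p by positivity)
  rwa [← Real.rpow_mul (norm_nonneg _), mul_one_div_cancel hp.ne', Real.rpow_one] at h5

variable (𝕜) in
/-- the vectors `e_n` -/
noncomputable def ee (n : ℕ) : XX 𝕜 S := Submodule.Quotient.mk (W.single ((∅ : Finset ℕ), n) 1)

theorem FF_ee (n : ℕ) : FF S n (ee 𝕜 S n) = 1 := by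
  unfold ee
  rw [FF_mk, Lam_single, coef_empty, if_pos rfl]
  simp

/-- sums of the `e_n` are averages of unit vectors -/
theorem sum_ee (A : Finset ℕ) : ∑ n ∈ A, ee 𝕜 S n
    = ∑ i ∈ Finset.range (S.M A), ((S.M A : 𝕜)⁻¹) •
      (Submodule.Quotient.mk (W.single (A, i) 1) : XX 𝕜 S) := by
  have h1 : (Submodule.Quotient.mk (xA 𝕜 p A) : XX 𝕜 S) = Submodule.Quotient.mk (uA 𝕜 S A) := by
    rw [Submodule.Quotient.eq]
    exact RA_mem S A
  have h2 : (Submodule.Quotient.mk (xA 𝕜 p A) : XX 𝕜 S) = ∑ n ∈ A, ee 𝕜 S n := by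
    have h3 : (Submodule.Quotient.mk (xA 𝕜 p A) : XX 𝕜 S) = (NN 𝕜 S).mkQ (xA 𝕜 p A) := rfl
    rw [h3]
    unfold xA
    rw [map_sum]
    rfl
  have h4 : uA 𝕜 S A = ∑ i ∈ Finset.range (S.M A), ((S.M A : 𝕜)⁻¹) • W.single (A, i) 1 := by
    unfold uA
    apply Finset.sum_congr rfl
    intro i _
    classical
    apply W.ext
    intro γ
    rw [W.smul_apply, W.single_apply, W.single_apply]
    split_ifs <;> simp
  rw [← h2, h1, h4]
  exact mk_sum S _ (fun _ => ((S.M A : 𝕜)⁻¹)) _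

theorem bounded_functional (G : XX 𝕜 S →ₗ[𝕜] 𝕜) (C : ℝ) (hG : ∀ x, ‖G x‖ ≤ C * qn S x) :
    Tendsto (fun n => G (ee 𝕜 S n)) atTop (𝓝 0) := by
  have hp := Exponent.pos (p := p)
  have hC : 0 ≤ C := by
    have h1 := hG (ee 𝕜 S 0)
    have h2 : 0 ≤ qn S (ee 𝕜 S 0) := (isQuasiBanach_qn (𝕜 := 𝕜) S).nonneg _
    have h3 : qn S (ee 𝕜 S 0) ≠ 0 := by
      intro h
      have h4 := (isQuasiBanach_qn (𝕜 := 𝕜) S).eq_zero _ h
      have h5 := FF_ee (𝕜 := 𝕜) S 0
      rw [h4, map_zero] at h5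
      exact zero_ne_one h5
    by_contra hcon
    push Not at hcon
    have h4 : 0 < qn S (ee 𝕜 S 0) := lt_of_le_of_ne h2 (Ne.symm h3)
    have := norm_nonneg (G (ee 𝕜 S 0))
    nlinarith
  have hunit : ∀ γ : Gam, ‖G (Submodule.Quotient.mk (W.single γ 1))‖ ≤ C := by
    intro γ
    refine le_trans (hG _) ?_
    have h1 : qn S (Submodule.Quotient.mk (W.single γ (1 : 𝕜))) ≤ 1 := by
      unfold qn
      apply Real.rpow_le_one (norm_nonneg _) _ (by positivity)
      refine le_trans (Submodule.Quotient.norm_mk_le _ _) ?_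
      rw [W.norm_single, norm_one, Real.one_rpow]
    nlinarith
  have hsum : ∀ A : Finset ℕ, ‖∑ n ∈ A, G (ee 𝕜 S n)‖ ≤ C := by
    intro A
    rw [← map_sum, sum_ee, map_sum]
    simp only [map_smul, smul_eq_mul]
    refine le_trans (norm_sum_le _ _) ?_
    have h1 : ∀ i ∈ Finset.range (S.M A), ‖((S.M A : 𝕜)⁻¹) *
        G (Submodule.Quotient.mk (W.single (A, i) 1))‖ ≤ (S.M A : ℝ)⁻¹ * C := by
      intro i _
      rw [norm_mul, norm_inv, RCLike.norm_natCast]
      exact mul_le_mul_of_nonneg_left (hunit _) (by positivity)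
    refine le_trans (Finset.sum_le_sum h1) ?_
    rw [Finset.sum_const, Finset.card_range, nsmul_eq_mul, ← mul_assoc]
    rcases Nat.eq_zero_or_pos (S.M A) with h | h
    · rw [h]; simpa using hC
    · rw [mul_inv_cancel₀ (by exact_mod_cast h.ne'), one_mul]
  -- bounded finite sums imply absolute summability, for real sequences
  have key : ∀ g : ℕ → ℝ, (∀ A : Finset ℕ, |∑ n ∈ A, g n| ≤ C) → Tendsto g atTop (𝓝 0) := by
    intro g hg
    have h1 : ∀ A : Finset ℕ, ∑ n ∈ A, |g n| ≤ 2 * C := by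
      intro A
      rw [← Finset.sum_filter_add_sum_filter_not A (fun n => 0 ≤ g n)]
      have h2 : ∑ n ∈ A with 0 ≤ g n, |g n| = ∑ n ∈ A with 0 ≤ g n, g n :=
        Finset.sum_congr rfl (fun n hn => abs_of_nonneg (Finset.mem_filter.mp hn).2)
      have h3 : ∑ n ∈ A with ¬ 0 ≤ g n, |g n| = - ∑ n ∈ A with ¬ 0 ≤ g n, g n := by
        rw [← Finset.sum_neg_distrib]
        exact Finset.sum_congr rfl (fun n hn =>
          abs_of_neg (not_le.mp (Finset.mem_filter.mp hn).2))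
      rw [h2, h3]
      have h4 := (abs_le.mp (hg (A.filter (fun n => 0 ≤ g n)))).2
      have h5 := (abs_le.mp (hg (A.filter (fun n => ¬ 0 ≤ g n)))).1
      linarith
    have h2 : Summable (fun n => |g n|) := summable_of_sum_le (fun n => abs_nonneg _) h1
    exact (summable_abs_iff.mp h2).tendsto_atTop_zero
  have hre : Tendsto (fun n => RCLike.re (G (ee 𝕜 S n))) atTop (𝓝 0) := by
    apply key
    intro A
    rw [← map_sum]
    exact le_trans (RCLike.abs_re_le_norm _) (hsum A)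
  have him : Tendsto (fun n => RCLike.im (G (ee 𝕜 S n))) atTop (𝓝 0) := by
    apply key
    intro A
    rw [← map_sum]
    exact le_trans (RCLike.abs_im_le_norm _) (hsum A)
  have h1 : Tendsto (fun n => ((RCLike.re (G (ee 𝕜 S n)) : ℝ) : 𝕜)
      + ((RCLike.im (G (ee 𝕜 S n)) : ℝ) : 𝕜) * RCLike.I) atTop (𝓝 (((0 : ℝ) : 𝕜) + ((0 : ℝ) : 𝕜) * RCLike.I)) := by
    apply Tendsto.add
    · exact (RCLike.continuous_ofReal.tendsto 0).comp hre
    · exact ((RCLike.continuous_ofReal.tendsto 0).comp him).mul_const _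
  simp only [RCLike.re_add_im, RCLike.ofReal_zero, zero_mul, add_zero] at h1
  exact h1

end QuasiNorm

/-! ### Existence of Banach envelopes -/

section Envelope

variable {𝕜 : Type} [RCLike 𝕜] {X : Type} [AddCommGroup X] [Module 𝕜 X]

/-- the largest seminorm dominated by `N` -/
noncomputable def envSemi (𝕜 : Type) [RCLike 𝕜] {X : Type} [AddCommGroup X] [Module 𝕜 X]
    (N : X → ℝ) : Seminorm 𝕜 X := sSup {q : Seminorm 𝕜 X | ∀ x, q x ≤ N x}

theorem env_bdd (N : X → ℝ) : BddAbove {q : Seminorm 𝕜 X | ∀ x, q x ≤ N x} := by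
  rw [Seminorm.bddAbove_iff]
  refine ⟨N, ?_⟩
  rintro _ ⟨q, hq, rfl⟩
  exact hq

theorem le_envSemi (N : X → ℝ) (q : Seminorm 𝕜 X) (hq : ∀ x, q x ≤ N x) (x : X) :
    q x ≤ envSemi 𝕜 N x := by
  have h1 : q ≤ sSup {q : Seminorm 𝕜 X | ∀ x, q x ≤ N x} := le_csSup (env_bdd N) hq
  exact h1 x

theorem envSemi_le (N : X → ℝ) (hN : ∀ x, 0 ≤ N x) (x : X) : envSemi 𝕜 N x ≤ N x := by
  unfold envSemi
  rw [Seminorm.sSup_apply (env_bdd N)]
  have : Nonempty {q : Seminorm 𝕜 X | ∀ x, q x ≤ N x} := ⟨⟨0, fun x => by simpa using hN x⟩⟩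
  exact ciSup_le (fun q => q.2 x)

/-- `X` with the largest seminorm dominated by `N` -/
def EnvX (𝕜 : Type) [RCLike 𝕜] {X : Type} [AddCommGroup X] [Module 𝕜 X] (_ : X → ℝ) : Type := X

noncomputable instance (N : X → ℝ) : SeminormedAddCommGroup (EnvX 𝕜 N) :=
  (envSemi 𝕜 N).toAddGroupSeminorm.toSeminormedAddCommGroup

instance (N : X → ℝ) : Module 𝕜 (EnvX 𝕜 N) := inferInstanceAs (Module 𝕜 X)

theorem EnvX.norm_def (N : X → ℝ) (x : EnvX 𝕜 N) : ‖x‖ = envSemi 𝕜 N x := rfl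

noncomputable instance (N : X → ℝ) : NormedSpace 𝕜 (EnvX 𝕜 N) where
  norm_smul_le c x := le_of_eq (map_smul_eq_mul (envSemi 𝕜 N) c x)

/-- the envelope map -/
noncomputable def envMap (N : X → ℝ) : X →ₗ[𝕜] UniformSpace.Completion (EnvX 𝕜 N) where
  toFun x := ((show EnvX 𝕜 N from x) : UniformSpace.Completion (EnvX 𝕜 N))
  map_add' x y := UniformSpace.Completion.coe_add (show EnvX 𝕜 N from x) (show EnvX 𝕜 N from y)
  map_smul' c x := UniformSpace.Completion.coe_smul c (show EnvX 𝕜 N from x)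

theorem norm_envMap (N : X → ℝ) (x : X) : ‖envMap (𝕜 := 𝕜) N x‖ = envSemi 𝕜 N x :=
  UniformSpace.Completion.norm_coe (show EnvX 𝕜 N from x)

theorem exists_envelope (N : X → ℝ) (hN : ∀ x, 0 ≤ N x) :
    IsBanachEnvelope N (envMap (𝕜 := 𝕜) N) := by
  refine ⟨inferInstance, fun x => ?_, ?_⟩
  · rw [norm_envMap]
    exact envSemi_le N hN x
  · intro Z _ _ _ T hT
    have hdense : DenseRange (envMap (𝕜 := 𝕜) N) :=
      UniformSpace.Completion.denseRange_coe (α := EnvX 𝕜 N)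
    have hnorm : ∀ x, ‖T x‖ ≤ 1 * ‖envMap (𝕜 := 𝕜) N x‖ := by
      intro x
      rw [one_mul, norm_envMap]
      have h1 := le_envSemi N ((normSeminorm 𝕜 Z).comp T) (fun x => by simpa using hT x) x
      simpa using h1
    refine ⟨T.extendOfNorm (envMap (𝕜 := 𝕜) N), ?_, ?_⟩
    · exact LinearMap.opNorm_extendOfNorm_le hdense zero_le_one hnorm
    · intro x
      exact LinearMap.extendOfNorm_eq hdense ⟨1, hnorm⟩ x

end Envelope


theorem main (𝕜 : Type) [RCLike 𝕜] (p : ℝ) (hp0 : 0 < p) (hp1 : p < 1) :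
    ∃ (X : Type) (_ : AddCommGroup X) (_ : Module 𝕜 X) (N : X → ℝ), IsCounterexample 𝕜 p N := by
  have : Exponent p := ⟨hp0, hp1⟩
  obtain ⟨S⟩ := exists_weights (p := p) hp1
  refine ⟨XX 𝕜 S, inferInstance, inferInstance, qn S, isQuasiBanach_qn S, schurP_qn S, ?_, ?_⟩
  · exact ⟨UniformSpace.Completion (EnvX 𝕜 (qn S : XX 𝕜 S → ℝ)), inferInstance, inferInstance,
      envMap (qn S), exists_envelope (qn S) (isQuasiBanach_qn (𝕜 := 𝕜) S).nonneg⟩
  · intro Y _ _ J hJ hS
    have hweak : ∀ f : Y →L[𝕜] 𝕜, Tendsto (fun n => f (J (ee 𝕜 S n))) atTop (𝓝 0) := by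
      intro f
      have := bounded_functional S (f.toLinearMap ∘ₗ J) ‖f‖ (fun x => ?_)
      · exact this
      · change ‖f (J x)‖ ≤ _
        refine le_trans (f.le_opNorm _) ?_
        exact mul_le_mul_of_nonneg_left (hJ.contraction x) (norm_nonneg _)
    have hnull := hS (fun n => J (ee 𝕜 S n)) hweak
    have hone : ∀ n, 1 ≤ ‖J (ee 𝕜 S n)‖ := by
      intro n
      obtain ⟨T', hT', hT'J⟩ := hJ.universal 𝕜 (FF S n) (FF_le S n)
      have h1 := hT'J (ee 𝕜 S n)
      rw [FF_ee] at h1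
      have h2 := T'.le_opNorm (J (ee 𝕜 S n))
      rw [h1, norm_one] at h2
      nlinarith [norm_nonneg (J (ee 𝕜 S n))]
    rw [tendsto_zero_iff_norm_tendsto_zero] at hnull
    have h1 := ge_of_tendsto' hnull hone
    norm_num at h1


end Pool.Agent.Lib.P4b0054
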